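import Mathlib

/-!
Wirtinger derivatives in a direction, and the Levi form.
-/

namespace Pool.Agent.Lib.MP_823829_an.VO

open Set Filter Topology Complex
open scoped ComplexConjugate

variable {E Y : Type*} [NormedAddCommGroup E] [NormedSpace ℂ E] [NormedAddCommGroup Y]
  [NormedSpace ℂ Y]

/-- The complex linear part of the derivative. -/
noncomputable def pd (a : E → ℂ) (x v : E) : ℂ := (fderiv ℝ a x v - I * fderiv ℝ a x (I • v)) / 2

/-- The conjugate linear part of the derivative. -/
noncomputable def pb (a : E → ℂ) (x v : E) : ℂ := (fderiv ℝ a x v + I * fderiv ℝ a x (I • v)) / 2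

/-- The Levi form, linear in `v` and conjugate linear in `w`. -/
noncomputable def levi (a : E → ℂ) (x v w : E) : ℂ := pb (fun y => pd a y v) x w

variable {a b : E → ℂ} {x v w : E}

theorem smul_split (c : ℂ) (v : E) : c • v = c.re • v + c.im • (I • v) := by
  conv_lhs => rw [← re_add_im c]
  rw [add_smul, mul_smul, coe_smul, coe_smul]

theorem rl_smul (L : E →L[ℝ] ℂ) (c : ℂ) (v : E) :
    L (c • v) = c.re * L v + c.im * L (I • v) := by
  rw [smul_split, map_add, map_smul, map_smul, real_smul, real_smul]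

theorem pd_smul (c : ℂ) : pd a x (c • v) = c * pd a x v := by
  simp only [pd]
  rw [smul_comm I c, rl_smul _ c v, rl_smul _ c (I • v), smul_smul, I_mul_I, neg_one_smul, map_neg]
  conv_rhs => rw [← re_add_im c]
  linear_combination (c.im * fderiv ℝ a x (I • v) / 2) * I_mul_I

theorem pb_smul (c : ℂ) : pb a x (c • v) = conj c * pb a x v := by
  simp only [pb]
  rw [smul_comm I c, rl_smul _ c v, rl_smul _ c (I • v), smul_smul, I_mul_I, neg_one_smul, map_neg]
  conv_rhs => rw [← re_add_im c]
  simp only [map_add, map_mul, conj_ofReal, conj_I]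
  linear_combination (c.im * fderiv ℝ a x (I • v) / 2) * I_mul_I

theorem pd_add_vec : pd a x (v + w) = pd a x v + pd a x w := by
  simp only [pd, smul_add, map_add]; ring

theorem pb_add_vec : pb a x (v + w) = pb a x v + pb a x w := by
  simp only [pb, smul_add, map_add]; ring

@[simp] theorem pd_zero_vec : pd a x 0 = 0 := by simp [pd]

@[simp] theorem pb_zero_vec : pb a x 0 = 0 := by simp [pb]

theorem pd_sum_vec {ι : Type*} (s : Finset ι) (c : ι → ℂ) (v : ι → E) :
    pd a x (∑ j ∈ s, c j • v j) = ∑ j ∈ s, c j * pd a x (v j) := by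
  classical
  induction s using Finset.induction_on with
  | empty => simp
  | insert j s hj ih => simp only [Finset.sum_insert hj, pd_add_vec, pd_smul, ih]

theorem pb_sum_vec {ι : Type*} (s : Finset ι) (c : ι → ℂ) (v : ι → E) :
    pb a x (∑ j ∈ s, c j • v j) = ∑ j ∈ s, conj (c j) * pb a x (v j) := by
  classical
  induction s using Finset.induction_on with
  | empty => simp
  | insert j s hj ih => simp only [Finset.sum_insert hj, pb_add_vec, pb_smul, ih]

theorem pd_add_pb : pd a x v + pb a x v = fderiv ℝ a x v := by simp only [pd, pb]; ring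

theorem pd_congr (h : a =ᶠ[𝓝 x] b) : pd a x v = pd b x v := by simp only [pd, h.fderiv_eq]

theorem pb_congr (h : a =ᶠ[𝓝 x] b) : pb a x v = pb b x v := by simp only [pb, h.fderiv_eq]

theorem levi_congr (h : a =ᶠ[𝓝 x] b) : levi a x v w = levi b x v w :=
  pb_congr (h.eventually_nhds.mono fun _ hy => pd_congr hy)

@[simp] theorem pd_const (c : ℂ) : pd (fun _ => c) x v = 0 := by simp [pd]

@[simp] theorem pb_const (c : ℂ) : pb (fun _ => c) x v = 0 := by simp [pb]

theorem pd_add (ha : DifferentiableAt ℝ a x) (hb : DifferentiableAt ℝ b x) :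
    pd (fun y => a y + b y) x v = pd a x v + pd b x v := by
  simp only [pd, fderiv_fun_add ha hb, add_apply]; ring

theorem pb_add (ha : DifferentiableAt ℝ a x) (hb : DifferentiableAt ℝ b x) :
    pb (fun y => a y + b y) x v = pb a x v + pb b x v := by
  simp only [pb, fderiv_fun_add ha hb, add_apply]; ring

theorem pd_mul (ha : DifferentiableAt ℝ a x) (hb : DifferentiableAt ℝ b x) :
    pd (fun y => a y * b y) x v = pd a x v * b x + a x * pd b x v := by
  simp only [pd, fderiv_fun_mul ha hb, add_apply, smul_apply, smul_eq_mul]; ring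

theorem pb_mul (ha : DifferentiableAt ℝ a x) (hb : DifferentiableAt ℝ b x) :
    pb (fun y => a y * b y) x v = pb a x v * b x + a x * pb b x v := by
  simp only [pb, fderiv_fun_mul ha hb, add_apply, smul_apply, smul_eq_mul]; ring

theorem pd_sum {ι : Type*} {s : Finset ι} {f : ι → E → ℂ}
    (h : ∀ i ∈ s, DifferentiableAt ℝ (f i) x) :
    pd (fun y => ∑ i ∈ s, f i y) x v = ∑ i ∈ s, pd (f i) x v := by
  simp only [pd, fderiv_fun_sum h, sum_apply, Finset.mul_sum, ← Finset.sum_sub_distrib,
    Finset.sum_div]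

theorem pb_sum {ι : Type*} {s : Finset ι} {f : ι → E → ℂ}
    (h : ∀ i ∈ s, DifferentiableAt ℝ (f i) x) :
    pb (fun y => ∑ i ∈ s, f i y) x v = ∑ i ∈ s, pb (f i) x v := by
  simp only [pb, fderiv_fun_sum h, sum_apply, Finset.mul_sum, ← Finset.sum_add_distrib,
    Finset.sum_div]

theorem fderiv_real {G : E → Y} (h : DifferentiableAt ℂ G x) (v : E) :
    fderiv ℝ G x v = fderiv ℂ G x v := by
  rw [h.fderiv_restrictScalars ℝ]; rfl

theorem pd_hol (h : DifferentiableAt ℂ a x) : pd a x v = fderiv ℂ a x v := by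
  simp only [pd, fderiv_real h, map_smul, smul_eq_mul]
  linear_combination (-fderiv ℂ a x v / 2) * I_mul_I

theorem pb_hol (h : DifferentiableAt ℂ a x) : pb a x v = 0 := by
  simp only [pb, fderiv_real h, map_smul, smul_eq_mul]
  linear_combination (fderiv ℂ a x v / 2) * I_mul_I

theorem fderiv_conj : fderiv ℝ (fun y => conj (a y)) x v = conj (fderiv ℝ a x v) := by
  have := conjCLE.comp_fderiv (f := a) (x := x)
  exact congrArg (fun L => L v) this

theorem pd_conj : pd (fun y => conj (a y)) x v = conj (pb a x v) := by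
  simp only [pd, pb, fderiv_conj, map_div₀, map_add, map_mul, conj_I, map_ofNat]; ring

theorem pb_conj : pb (fun y => conj (a y)) x v = conj (pd a x v) := by
  simp only [pd, pb, fderiv_conj, map_div₀, map_sub, map_mul, conj_I, map_ofNat]; ring

theorem pb_real (u : E → ℝ) : pb (fun y => (u y : ℂ)) x v = conj (pd (fun y => (u y : ℂ)) x v) := by
  rw [← pb_conj]; simp

theorem diff_conj (h : DifferentiableAt ℝ a x) : DifferentiableAt ℝ (fun y => conj (a y)) x :=
  conjCLE.differentiableAt.comp x h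

theorem pd_comp {Φ : Y → ℂ} {G : E → Y} (hΦ : DifferentiableAt ℝ Φ (G x))
    (hG : DifferentiableAt ℂ G x) :
    pd (fun y => Φ (G y)) x v = pd Φ (G x) (fderiv ℂ G x v) := by
  simp only [pd, fderiv_fun_comp x hΦ (hG.restrictScalars ℝ), ContinuousLinearMap.comp_apply,
    fderiv_real hG, map_smul]

theorem pb_comp {Φ : Y → ℂ} {G : E → Y} (hΦ : DifferentiableAt ℝ Φ (G x))
    (hG : DifferentiableAt ℂ G x) :
    pb (fun y => Φ (G y)) x v = pb Φ (G x) (fderiv ℂ G x v) := by
  simp only [pb, fderiv_fun_comp x hΦ (hG.restrictScalars ℝ), ContinuousLinearMap.comp_apply,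
    fderiv_real hG, map_smul]

theorem fderiv_outer {S : ℝ → ℝ} {s : ℝ} {u : E → ℝ} (hS : HasDerivAt S s (u x))
    (hu : DifferentiableAt ℝ u x) (v : E) :
    fderiv ℝ (fun y => (S (u y) : ℂ)) x v = s * fderiv ℝ (fun y => (u y : ℂ)) x v := by
  have h1 := (ofRealCLM.hasFDerivAt.comp x (hS.comp_hasFDerivAt x hu.hasFDerivAt)).fderiv
  have h2 := (ofRealCLM.hasFDerivAt.comp x hu.hasFDerivAt).fderiv
  have e1 : fderiv ℝ (fun y => (S (u y) : ℂ)) x v = _ := congrArg (fun L => L v) h1
  have e2 : fderiv ℝ (fun y => (u y : ℂ)) x v = _ := congrArg (fun L => L v) h2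
  rw [e1, e2]
  simp

theorem pd_outer {S : ℝ → ℝ} {s : ℝ} {u : E → ℝ} (hS : HasDerivAt S s (u x))
    (hu : DifferentiableAt ℝ u x) :
    pd (fun y => (S (u y) : ℂ)) x v = s * pd (fun y => (u y : ℂ)) x v := by
  simp only [pd, fderiv_outer hS hu]; ring

theorem pb_outer {S : ℝ → ℝ} {s : ℝ} {u : E → ℝ} (hS : HasDerivAt S s (u x))
    (hu : DifferentiableAt ℝ u x) :
    pb (fun y => (S (u y) : ℂ)) x v = s * pb (fun y => (u y : ℂ)) x v := by
  simp only [pb, fderiv_outer hS hu]; ring

theorem contDiffAt_pd {n : ℕ} (h : ContDiffAt ℝ (n + 1) a x) {Z : E → E}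
    (hZ : ContDiffAt ℝ n Z x) : ContDiffAt ℝ n (fun y => pd a y (Z y)) x := by
  have h1 : ContDiffAt ℝ n (fderiv ℝ a) x := h.fderiv_right le_rfl
  exact ((h1.clm_apply hZ).sub (contDiffAt_const.mul (h1.clm_apply (hZ.const_smul I)))).div_const _

theorem contDiffAt_pb {n : ℕ} (h : ContDiffAt ℝ (n + 1) a x) {Z : E → E}
    (hZ : ContDiffAt ℝ n Z x) : ContDiffAt ℝ n (fun y => pb a y (Z y)) x := by
  have h1 : ContDiffAt ℝ n (fderiv ℝ a) x := h.fderiv_right le_rfl
  exact ((h1.clm_apply hZ).add (contDiffAt_const.mul (h1.clm_apply (hZ.const_smul I)))).div_const _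

theorem diff_pd (h : ContDiffAt ℝ 2 a x) {Z : E → E} (hZ : DifferentiableAt ℝ Z x) :
    DifferentiableAt ℝ (fun y => pd a y (Z y)) x := by
  have h1 : DifferentiableAt ℝ (fderiv ℝ a) x :=
    (h.fderiv_right (m := 1) (by norm_num)).differentiableAt one_ne_zero
  simp only [pd, div_eq_mul_inv]
  exact ((h1.clm_apply hZ).sub ((h1.clm_apply (hZ.const_smul I)).const_mul _)).mul_const _

theorem fderiv_pd (h : ContDiffAt ℝ 2 a x) {Z : E → E} (hZ : DifferentiableAt ℝ Z x) (w : E) :
    fderiv ℝ (fun y => pd a y (Z y)) x w = (fderiv ℝ (fderiv ℝ a) x w (Z x)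
      - I * fderiv ℝ (fderiv ℝ a) x w (I • Z x)) / 2 + pd a x (fderiv ℝ Z x w) := by
  have h1 : DifferentiableAt ℝ (fderiv ℝ a) x :=
    (h.fderiv_right (m := 1) (by norm_num)).differentiableAt one_ne_zero
  have h2 := (((h1.hasFDerivAt.clm_apply hZ.hasFDerivAt).sub
    ((h1.hasFDerivAt.clm_apply (hZ.hasFDerivAt.const_smul I)).const_mul I)).mul_const
      (2 : ℂ)⁻¹).fderiv
  simp only [pd, div_eq_mul_inv]
  refine (congrArg (fun L => L w) h2).trans ?_
  simp
  ring

/-- The conjugate derivative does not see a holomorphic vector field. -/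
theorem pb_pd_field (h : ContDiffAt ℝ 2 a x) {Z : E → E} (hZ : DifferentiableAt ℂ Z x) :
    pb (fun y => pd a y (Z y)) x w = levi a x (Z x) w := by
  have h0 := fderiv_pd h (differentiableAt_const (Z x))
  simp only [levi, pb, fderiv_pd h (hZ.restrictScalars ℝ), h0, fderiv_real hZ, map_smul, pd_smul,
    fderiv_fun_const, Pi.zero_apply, zero_apply, pd_zero_vec]
  linear_combination (pd a x (fderiv ℂ Z x w) / 2) * I_mul_I

theorem levi_sum_left (h : ContDiffAt ℝ 2 a x) {ι : Type*} (s : Finset ι) (c : ι → ℂ)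
    (v : ι → E) : levi a x (∑ j ∈ s, c j • v j) w = ∑ j ∈ s, c j * levi a x (v j) w := by
  simp only [levi, pd_sum_vec]
  rw [pb_sum fun j _ => (diff_pd h (differentiableAt_const _)).const_mul _]
  refine Finset.sum_congr rfl fun j _ => ?_
  rw [pb_mul (differentiableAt_const _) (diff_pd h (differentiableAt_const _))]
  simp

theorem levi_sum_right {ι : Type*} (s : Finset ι) (c : ι → ℂ) (w : ι → E) :
    levi a x v (∑ j ∈ s, c j • w j) = ∑ j ∈ s, conj (c j) * levi a x v (w j) := pb_sum_vec s c w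

theorem levi_mul (ha : ContDiffAt ℝ 2 a x) (hb : ContDiffAt ℝ 2 b x) :
    levi (fun y => a y * b y) x v w = levi a x v w * b x + pd a x v * pb b x w
      + pb a x w * pd b x v + a x * levi b x v w := by
  have h1 : (fun y => pd (fun y => a y * b y) y v) =ᶠ[𝓝 x]
      fun y => pd a y v * b y + a y * pd b y v := by
    filter_upwards [ha.eventually (by simp), hb.eventually (by simp)] with y h1 h2
    exact pd_mul (h1.differentiableAt two_ne_zero) (h2.differentiableAt two_ne_zero)
  have da := ha.differentiableAt two_ne_zero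
  have db := hb.differentiableAt two_ne_zero
  have dA := diff_pd ha (differentiableAt_const v)
  have dB := diff_pd hb (differentiableAt_const v)
  rw [levi, pb_congr h1, pb_add (dA.fun_mul db) (da.fun_mul dB), pb_mul dA db, pb_mul da dB]
  simp only [levi]
  ring

theorem contDiffAt_ofReal {n : ℕ} {u : E → ℝ} (hu : ContDiffAt ℝ n u x) :
    ContDiffAt ℝ n (fun y => (u y : ℂ)) x := ofRealCLM.contDiff.contDiffAt.comp x hu

theorem contDiffAt_conj {n : ℕ} (h : ContDiffAt ℝ n a x) :
    ContDiffAt ℝ n (fun y => conj (a y)) x := conjCLE.contDiff.contDiffAt.comp x h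

theorem levi_outer {S S' : ℝ → ℝ} {s : ℝ} {u : E → ℝ} (hS : ∀ t, HasDerivAt S (S' t) t)
    (hS' : HasDerivAt S' s (u x)) (hu : ContDiffAt ℝ 2 u x) :
    levi (fun y => (S (u y) : ℂ)) x v w
      = s * pd (fun y => (u y : ℂ)) x v * conj (pd (fun y => (u y : ℂ)) x w)
        + S' (u x) * levi (fun y => (u y : ℂ)) x v w := by
  have h1 : (fun y => pd (fun y => (S (u y) : ℂ)) y v) =ᶠ[𝓝 x]
      fun y => (S' (u y) : ℂ) * pd (fun y => (u y : ℂ)) y v := by
    filter_upwards [hu.eventually (by simp)] with y h1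
    exact pd_outer (hS _) (h1.differentiableAt two_ne_zero)
  have du := hu.differentiableAt two_ne_zero
  have d1 : DifferentiableAt ℝ (fun y => (S' (u y) : ℂ)) x :=
    ofRealCLM.differentiableAt.comp x (hS'.differentiableAt.comp x du)
  have d2 := diff_pd (contDiffAt_ofReal hu) (differentiableAt_const v)
  rw [levi, pb_congr h1, pb_mul d1 d2, pb_outer hS' du, pb_real]
  simp only [levi]
  ring

theorem levi_comp {Φ : Y → ℂ} {G : E → Y} (hΦ : ContDiffAt ℝ 2 Φ (G x))
    (hG : ContDiffAt ℂ 2 G x) :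
    levi (fun y => Φ (G y)) x v w = levi Φ (G x) (fderiv ℂ G x v) (fderiv ℂ G x w) := by
  have h1 : (fun y => pd (fun y => Φ (G y)) y v) =ᶠ[𝓝 x]
      fun y => pd (fun p : Y × Y => Φ p.1) (G y, fderiv ℂ G y v) (fderiv ℂ G y v, 0) := by
    filter_upwards [hG.eventually (by simp),
      hG.continuousAt.eventually (hΦ.eventually (by simp))] with y h1 h2
    have h3 := h2.differentiableAt two_ne_zero
    rw [pd_comp h3 (h1.differentiableAt two_ne_zero),
      pd_comp (G := Prod.fst) h3 differentiableAt_fst]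
    simp [fderiv_fst]
  have dG := hG.differentiableAt two_ne_zero
  have dV : DifferentiableAt ℂ (fun y => fderiv ℂ G y v) x :=
    ((hG.fderiv_right (m := 1) (by norm_num)).differentiableAt one_ne_zero).clm_apply
      (differentiableAt_const v)
  have hΦ' : ContDiffAt ℝ 2 (fun p : Y × Y => Φ p.1) (G x, fderiv ℂ G x v) :=
    ContDiffAt.comp (f := Prod.fst) _ hΦ contDiffAt_fst
  have hZ : DifferentiableAt ℂ (fun p : Y × Y => (p.2, (0 : Y))) (G x, fderiv ℂ G x v) := by
    fun_prop
  rw [levi, pb_congr h1, pb_comp (Φ := fun p : Y × Y => pd (fun p : Y × Y => Φ p.1) p (p.2, 0))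
    (G := fun y => (G y, fderiv ℂ G y v)) (diff_pd hΦ' (hZ.restrictScalars ℝ)) (dG.prodMk dV),
    pb_pd_field hΦ' hZ, levi, levi]
  have h2 : (fun y => pd (fun p : Y × Y => Φ p.1) y (fderiv ℂ G x v, 0))
      =ᶠ[𝓝 (G x, fderiv ℂ G x v)] fun p => pd Φ p.1 (fderiv ℂ G x v) := by
    filter_upwards [continuousAt_fst.eventually (hΦ.eventually (by simp))] with y h2
    rw [pd_comp (G := Prod.fst) (h2.differentiableAt two_ne_zero) differentiableAt_fst]
    simp [fderiv_fst]
  rw [pb_congr h2, pb_comp (Φ := fun p => pd Φ p (fderiv ℂ G x v)) (G := Prod.fst)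
    (diff_pd hΦ (differentiableAt_const _)) differentiableAt_fst, dG.fderiv_prodMk dV]
  simp [fderiv_fst]

end Pool.Agent.Lib.MP_823829_an.VO
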