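import Pool.Agent.Lib.MP_823829_an.VO.Wirt

/-!
Holomorphic vector fields without divergence, integration by parts along them, and the identity of
Piola for the fields of cofactors.
-/

namespace Pool.Agent.Lib.MP_823829_an.VO

open Set Filter Topology Complex MeasureTheory
open scoped ComplexConjugate

variable {E : Type*} [NormedAddCommGroup E] [NormedSpace ℂ E]

/-- On `V` the function `a` vanishes outside a compact subset of `V`. -/
def Cpt {α : Type*} [Zero α] (V : Set E) (a : E → α) : Prop :=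
  ∃ K, IsCompact K ∧ K ⊆ V ∧ ∀ x ∈ V, a x ≠ 0 → x ∈ K

omit [NormedSpace ℂ E] in
theorem Cpt.mono {α β : Type*} [Zero α] [Zero β] {V : Set E} {a : E → α} {b : E → β}
    (h : Cpt V a) (hb : ∀ x ∈ V, a x = 0 → b x = 0) : Cpt V b :=
  let ⟨K, h1, h2, h3⟩ := h
  ⟨K, h1, h2, fun x hx h0 => h3 x hx fun h4 => h0 (hb x hx h4)⟩

omit [NormedSpace ℂ E] in
/-- version for functions built from derivatives of `a` -/
theorem Cpt.mono' {α β : Type*} [Zero α] [Zero β] {V : Set E} (hV : IsOpen V) {a : E → α}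
    {b : E → β} (h : Cpt V a) (hb : ∀ x ∈ V, a =ᶠ[𝓝 x] (fun _ => 0) → b x = 0) : Cpt V b := by
  obtain ⟨K, h1, h2, h3⟩ := h
  refine ⟨K, h1, h2, fun x hx h0 => by_contra fun hK => h0 (hb x hx ?_)⟩
  filter_upwards [hV.mem_nhds hx, h1.isClosed.isOpen_compl.mem_nhds hK] with y y1 y2
  exact by_contra fun h4 => y2 (h3 y y1 h4)

theorem Cpt.pd {V : Set E} (hV : IsOpen V) {a : E → ℂ} (h : Cpt V a) (Z : E → E) :
    Cpt V fun x => pd a x (Z x) := h.mono' hV fun _ _ h0 => by rw [pd_congr h0, pd_const]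

theorem Cpt.pb {V : Set E} (hV : IsOpen V) {a : E → ℂ} (h : Cpt V a) (Z : E → E) :
    Cpt V fun x => pb a x (Z x) := h.mono' hV fun _ _ h0 => by rw [pb_congr h0, pb_const]

variable [FiniteDimensional ℂ E] [MeasurableSpace E] [BorelSpace E] {μ : Measure E}
  [μ.IsAddHaarMeasure] {V : Set E}

omit [FiniteDimensional ℂ E] in
theorem Cpt.integrableOn {F : Type*} [NormedAddCommGroup F] (hV : IsOpen V) {a : E → F}
    (h : Cpt V a) (ha : ContinuousOn a V) : IntegrableOn a V μ := by
  obtain ⟨K, h1, h2, h3⟩ := h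
  exact ((ha.mono h2).integrableOn_compact h1).of_forall_sdiff_eq_zero hV.measurableSet
    fun x hx => by_contra fun h0 => hx.2 (h3 x hx.1 h0)

theorem integral_fderiv (hV : IsOpen V) {a : E → ℂ} (ha : ContDiffOn ℝ 1 a V) (h : Cpt V a)
    (v : E) : ∫ x in V, fderiv ℝ a x v ∂μ = 0 := by
  have : FiniteDimensional ℝ E := Module.Finite.trans ℂ E
  obtain ⟨K, h1, h2, h3⟩ := h
  have e1 : ∀ x ∈ V, V.indicator a =ᶠ[𝓝 x] a := fun x hx => by
    filter_upwards [hV.mem_nhds hx] with y hy using indicator_of_mem hy a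
  have e2 : ∀ x ∉ K, V.indicator a =ᶠ[𝓝 x] fun _ => 0 := fun x hx => by
    filter_upwards [h1.isClosed.isOpen_compl.mem_nhds hx] with y hy
    exact indicator_apply_eq_zero.2 fun y1 => by_contra fun h4 => hy (h3 y y1 h4)
  have hc : ContDiff ℝ 1 (V.indicator a) := contDiff_iff_contDiffAt.2 fun x => by
    by_cases hx : x ∈ V
    · exact (ha.contDiffAt (hV.mem_nhds hx)).congr_of_eventuallyEq (e1 x hx)
    · exact contDiffAt_const.congr_of_eventuallyEq (e2 x fun h4 => hx (h2 h4))
  have hs : HasCompactSupport (V.indicator a) := .intro h1 fun x hx => (e2 x hx).self_of_nhds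
  have hd := hc.continuous_fderiv one_ne_zero
  have h4 := integral_mul_fderiv_eq_neg_fderiv_mul_of_integrable (μ := μ) (f := fun _ => (1 : ℂ))
    (g := V.indicator a) (v := v) (by simp)
    (by
      simp only [one_mul]
      exact Continuous.integrable_of_hasCompactSupport (by fun_prop)
        (.intro h1 fun x hx => by simp [(e2 x hx).fderiv_eq]))
    (by simpa using hc.continuous.integrable_of_hasCompactSupport hs)
    (fun _ _ => differentiableAt_const _) fun x _ => hc.differentiable one_ne_zero x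
  simp only [one_mul, fderiv_fun_const, Pi.zero_apply, zero_apply, zero_mul, integral_zero,
    neg_zero] at h4
  rw [← h4, ← setIntegral_eq_integral_of_forall_compl_eq_zero (s := V) (μ := μ)
    (f := fun x => fderiv ℝ (V.indicator a) x v)
    fun x hx => by simp [(e2 x fun h4 => hx (h2 h4)).fderiv_eq]]
  exact setIntegral_congr_fun hV.measurableSet fun x hx => by simp only [(e1 x hx).fderiv_eq]

omit [FiniteDimensional ℂ E] [MeasurableSpace E] [BorelSpace E] in
theorem continuousOn_pd (hV : IsOpen V) {a : E → ℂ} (ha : ContDiffOn ℝ 1 a V) {Z : E → E}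
    (hZ : ContinuousOn Z V) : ContinuousOn (fun x => pd a x (Z x)) V := by
  have := ha.continuousOn_fderiv_of_isOpen hV le_rfl
  unfold pd
  fun_prop

omit [FiniteDimensional ℂ E] [MeasurableSpace E] [BorelSpace E] in
theorem continuousOn_pb (hV : IsOpen V) {a : E → ℂ} (ha : ContDiffOn ℝ 1 a V) {Z : E → E}
    (hZ : ContinuousOn Z V) : ContinuousOn (fun x => pb a x (Z x)) V := by
  have := ha.continuousOn_fderiv_of_isOpen hV le_rfl
  unfold pb
  fun_prop

theorem integral_pd (hV : IsOpen V) {a : E → ℂ} (ha : ContDiffOn ℝ 1 a V) (h : Cpt V a) (v : E) :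
    ∫ x in V, pd a x v ∂μ = 0 := by
  have h1 := ha.continuousOn_fderiv_of_isOpen hV le_rfl
  have h2 : ∀ w, IntegrableOn (fun x => fderiv ℝ a x w) V μ := fun w =>
    (h.mono' hV fun _ _ h0 => by simp [h0.fderiv_eq]).integrableOn hV (by fun_prop)
  simp only [pd]
  rw [integral_div, integral_sub (h2 _) ((h2 _).const_mul _), integral_const_mul,
    integral_fderiv hV ha h, integral_fderiv hV ha h]
  simp

/-- A holomorphic vector field on `V` along which one can integrate by parts. -/
structure Sol (μ : Measure E) (V : Set E) (Z : E → E) : Prop where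
  op : IsOpen V
  hol : ContDiffOn ℂ 1 Z V
  int : ∀ a : E → ℂ, ContDiffOn ℝ 1 a V → Cpt V a → ∫ x in V, pd a x (Z x) ∂μ = 0

section
omit [FiniteDimensional ℂ E] [μ.IsAddHaarMeasure]
variable {Z : E → E}

omit [BorelSpace E] in
theorem Sol.int_pb (h : Sol μ V Z) {a : E → ℂ} (ha : ContDiffOn ℝ 1 a V) (hc : Cpt V a) :
    ∫ x in V, pb a x (Z x) ∂μ = 0 := by
  have := h.int (fun x => conj (a x)) (conjCLE.contDiff.comp_contDiffOn ha)
    (hc.mono fun x _ h0 => by simp [h0])
  simpa only [pd_conj, integral_conj, map_eq_zero] using this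

theorem Sol.mono (h : Sol μ V Z) {W : Set E} (hW : IsOpen W) (hWV : W ⊆ V) : Sol μ W Z := by
  refine ⟨hW, h.hol.mono hWV, fun a ha ⟨K, h1, h2, h3⟩ => ?_⟩
  have e1 : ∀ x ∈ W, W.indicator a =ᶠ[𝓝 x] a := fun x hx => by
    filter_upwards [hW.mem_nhds hx] with y hy using indicator_of_mem hy a
  have e2 : ∀ x ∉ K, W.indicator a =ᶠ[𝓝 x] fun _ => 0 := fun x hx => by
    filter_upwards [h1.isClosed.isOpen_compl.mem_nhds hx] with y hy
    exact indicator_apply_eq_zero.2 fun y1 => by_contra fun h4 => hy (h3 y y1 h4)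
  have h4 := h.int (W.indicator a) (fun x _ => ContDiffAt.contDiffWithinAt (by
    by_cases hx : x ∈ W
    · exact (ha.contDiffAt (hW.mem_nhds hx)).congr_of_eventuallyEq (e1 x hx)
    · exact contDiffAt_const.congr_of_eventuallyEq (e2 x fun h4 => hx (h2 h4))))
    ⟨K, h1, h2.trans hWV, fun x _ h0 => by_contra fun hx => h0 (e2 x hx).self_of_nhds⟩
  rw [setIntegral_eq_of_subset_of_forall_sdiff_eq_zero h.op.measurableSet hWV
    fun x hx => by rw [pd_congr (e2 x fun h4 => hx.2 (h2 h4)), pd_const]] at h4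
  rw [← h4]
  exact setIntegral_congr_fun hW.measurableSet fun x hx => (pd_congr (e1 x hx)).symm

end

theorem sol_of_div (hV : IsOpen V) {ι : Type*} [Fintype ι] (v : ι → E) {C : ι → E → ℂ}
    (hC : ∀ j, ContDiffOn ℂ 1 (C j) V) (hd : ∀ x ∈ V, ∑ j, fderiv ℂ (C j) x (v j) = 0) :
    Sol μ V fun x => ∑ j, C j x • v j := by
  refine ⟨hV, ContDiffOn.sum fun j _ => (hC j).smul contDiffOn_const, fun a ha hc => ?_⟩
  have h1 : ∀ j, ContDiffOn ℝ 1 (fun x => a x * C j x) V := fun j =>
    ha.mul ((hC j).restrict_scalars ℝ)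
  have h2 : ∀ j, Cpt V fun x => a x * C j x := fun j => hc.mono fun x _ h0 => by simp [h0]
  rw [setIntegral_congr_fun hV.measurableSet
    (g := fun x => ∑ j, pd (fun x => a x * C j x) x (v j)) fun x hx => ?_,
    integral_finsetSum _ fun j _ => ((h2 j).pd hV fun _ => v j).integrableOn hV
      (continuousOn_pd hV (h1 j) continuousOn_const)]
  · exact Finset.sum_eq_zero fun j _ => integral_pd hV (h1 j) (h2 j) _
  have da := (ha.contDiffAt (hV.mem_nhds hx)).differentiableAt one_ne_zero
  have dC := fun j => ((hC j).contDiffAt (hV.mem_nhds hx)).differentiableAt one_ne_zero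
  simp only [pd_sum_vec, fun j => pd_mul (v := v j) da ((dC j).restrictScalars ℝ),
    fun j => pd_hol (v := v j) (dC j), Finset.sum_add_distrib, ← Finset.mul_sum, hd x hx, mul_zero,
    add_zero]
  exact Finset.sum_congr rfl fun j _ => mul_comm _ _

theorem sol_const (hV : IsOpen V) (v : E) : Sol μ V fun _ => v :=
  ⟨hV, contDiffOn_const, fun _ ha hc => integral_pd hV ha hc v⟩

/-- The signed minors of the derivative of `g` along the vectors `v`. -/
noncomputable def cof {n : ℕ} (g : E → Fin n → ℂ) (v : Fin (n + 1) → E) (j : Fin (n + 1))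
    (x : E) : ℂ :=
  (-1) ^ (j : ℕ) * (Matrix.of fun k i => fderiv ℂ g x (v (j.succAbove k)) i).det

/-- The field of cofactors. -/
noncomputable def fld {n : ℕ} (g : E → Fin n → ℂ) (v : Fin (n + 1) → E) (x : E) : E :=
  ∑ j, cof g v j x • v j

section
omit [FiniteDimensional ℂ E] [MeasurableSpace E] [BorelSpace E]
variable {n : ℕ} {g : E → Fin n → ℂ} {v : Fin (n + 1) → E} {x : E}

/-- A linear form evaluated on the field of cofactors is a determinant. -/
theorem sum_cof (c : Fin (n + 1) → ℂ) : ∑ j, cof g v j x * c j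
    = (Matrix.of fun j => Fin.cons (α := fun _ => ℂ) (c j) (fderiv ℂ g x (v j))).det := by
  rw [Matrix.det_succ_column_zero]
  refine Finset.sum_congr rfl fun j _ => ?_
  simp only [cof, Matrix.of_apply, Fin.cons_zero]
  rw [mul_right_comm]
  rfl

theorem contDiffAt_cof (hg : ContDiffAt ℂ 2 g x) (j : Fin (n + 1)) :
    ContDiffAt ℂ 1 (cof g v j) x := by
  have h1 : ContDiffAt ℂ 1 (fderiv ℂ g) x := hg.fderiv_right (by norm_num)
  unfold cof
  simp only [Matrix.det_apply', Matrix.of_apply]
  exact contDiffAt_const.mul (ContDiffAt.sum fun σ _ => contDiffAt_const.mul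
    (contDiffAt_prod fun i _ => contDiffAt_pi.1 (h1.clm_apply contDiffAt_const) i))

theorem piola (hg : ContDiffAt ℂ 2 g x) : ∑ j, fderiv ℂ (cof g v j) x (v j) = 0 := by
  let ω : (Fin n → ℂ) [⋀^Fin n]→L[ℂ] ℂ := ⟨⟨Matrix.detRowAlternating.toMultilinearMap,
    Continuous.matrix_det (A := fun m : Fin n → Fin n → ℂ => Matrix.of m) continuous_id⟩,
    Matrix.detRowAlternating.map_eq_zero_of_eq'⟩
  have h1 := extDeriv_pullback (ω := fun _ => ω) (differentiableAt_const ω) hg (by simp)
  have h2 : extDeriv (fun _ : Fin n → ℂ => ω) (g x) = 0 := by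
    ext u
    simp [extDeriv_apply (differentiableAt_const ω)]
  have h3 : DifferentiableAt ℂ (fderiv ℂ g) x :=
    (hg.fderiv_right (m := 1) (by norm_num)).differentiableAt one_ne_zero
  have h4 := extDeriv_apply ((differentiableAt_const ω).continuousAlternatingMapCompContinuousLinearMap
    h3) v
  rw [h1, h2] at h4
  refine Eq.trans (Finset.sum_congr rfl fun j _ => ?_) h4.symm
  have h5 := ((contDiffAt_cof (v := v) hg j).differentiableAt one_ne_zero).const_mul
    ((-1) ^ (j : ℕ))
  have e : (fun y => ω.compContinuousLinearMap (fderiv ℂ g y) (j.removeNth v))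
      = fun y => (-1) ^ (j : ℕ) * cof g v j y := by
    funext y
    rw [cof, ← mul_assoc, ← mul_pow]
    simp only [mul_neg, mul_one, neg_neg, one_pow, one_mul]
    rfl
  rw [e, fderiv_const_mul ((contDiffAt_cof hg j).differentiableAt one_ne_zero)]
  simp [← mul_assoc, ← mul_pow]

end

/-- The identity of Piola. -/
theorem sol_fld (hV : IsOpen V) {n : ℕ} {g : E → Fin n → ℂ} (hg : ContDiffOn ℂ 2 g V)
    (v : Fin (n + 1) → E) : Sol μ V (fld g v) :=
  sol_of_div hV v (fun j _ hx => (contDiffAt_cof (hg.contDiffAt (hV.mem_nhds hx)) j).contDiffWithinAt)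
    fun _ hx => piola (hg.contDiffAt (hV.mem_nhds hx))

end Pool.Agent.Lib.MP_823829_an.VO
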