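import Pool.Agent.Lib.MP_823829_an.VO.Stmt
import Pool.Agent.Lib.MP_823829_an.LA.All
import Pool.Agent.Lib.MP_823829_an.LA.NI
import Pool.Agent.Lib.MP_823829_an.LA.Pure
import Pool.Agent.Lib.MP_823829_an.LA.PureMG
import Pool.Agent.Lib.MP_823829_an.LA.Mass
import Pool.Agent.Lib.MP_823829_an.LA.BishCore
import Pool.Agent.Lib.MP_823829_an.LA.Bish
import Pool.Agent.Lib.MP_823829_an.LA.XB
import Pool.Agent.Lib.MP_823829_an.LA.Clos
import Pool.Agent.Lib.MP_823829_an.LA.Fin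
import Pool.Agent.Lib.MP_823829_an.LA.ST
import Pool.Agent.Lib.MP_823829_an.LA.GMer
import Pool.Agent.Lib.MP_823829_an.LA.LemM
import Pool.Agent.Lib.MP_823829_an.LA.BishX

/-!
The graph of a meromorphic map, read in a chart, satisfies the hypotheses of the formula of Stokes.
-/

namespace Pool.Agent.Lib.MP_823829_an.VO

open Set Filter Topology Complex MeasureTheory Metric Module
open scoped ComplexConjugate ENNReal NNReal

universe u

theorem finX : LA.FinS.{u} := LA.finS LA.xbAll LA.pureS LA.pureMGS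
theorem stX : LA.STall.{u} := LA.stAll LA.xbAll LA.pureS LA.niS LA.ndS (LA.closS LA.xbAll) finX
theorem gmX : LA.GMall.{u} := LA.gmAll LA.xbAll (LA.closS LA.xbAll) stX
theorem lemX : LA.LemMS.{u} := LA.lemMS LA.xbAll LA.pureS finX
theorem bishX : LA.BishXS.{u} :=
  LA.bishXS LA.xbAll stX (LA.bishS LA.pureS LA.massS (LA.bishCoreS LA.pureS LA.pureMGS))

variable {T Y : Type} [NormedAddCommGroup T] [NormedSpace ℂ T] [NormedAddCommGroup Y]
  [NormedSpace ℂ Y] {V : Set T} {G : T → Y} {O : Set Y}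

theorem nsq_smul {ι : Type*} [Fintype ι] (c : ℂ) (y : ι → ℂ) : nsq (c • y) = ‖c‖ ^ 2 * nsq y := by
  simp [nsq, Finset.mul_sum, mul_pow]

theorem continuous_nsq {ι : Type*} [Fintype ι] : Continuous (nsq : (ι → ℂ) → ℝ) := by
  unfold nsq; fun_prop

theorem lp_of_an [FiniteDimensional ℂ Y] (h : Gr V G O) {S Sg : Set Y} {π : Y → T}
    (hπ : Continuous π) (h1 : ∀ x ∈ V, π (G x) = x) (hS : ∀ y ∈ O, y ∈ closure S → y ∈ S)
    (h2 : MapsTo G V S) (h3 : ∀ y ∈ S ∩ O, y ∉ Sg → y ∈ G '' V) (h4 : ∀ x ∈ V, G x ∉ Sg)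
    (h5 : LA.AnOn Sg O) : LP V G O := by
  refine ⟨h, fun p hp => ?_⟩
  obtain ⟨W, r, f, hW, hpW, hf, hz⟩ := h5 p hp
  obtain ⟨c, hc, hc0⟩ : ∃ c : ℂ, nsq (c • f p) < 1 / 4 ∧ c ≠ 0 := by
    have h6 : Continuous fun c : ℂ => nsq (c • f p) := continuous_nsq.comp (by fun_prop)
    have h7 : ∀ᶠ c in 𝓝 (0 : ℂ), nsq (c • f p) < 1 / 4 :=
      h6.continuousAt.eventually_lt continuousAt_const (by simp [nsq])
    exact ((h7.filter_mono nhdsWithin_le_nhds).and (self_mem_nhdsWithin (s := {0}ᶜ))).exists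
  have hn : ContinuousOn (fun y => nsq (c • f y)) W :=
    continuous_nsq.comp_continuousOn (hf.continuousOn.const_smul c)
  have hO : IsOpen (O ∩ (W ∩ (fun y => nsq (c • f y)) ⁻¹' Iio (1 / 4))) :=
    h.opO.inter (hn.isOpen_inter_preimage hW isOpen_Iio)
  have h' := h.mono hO
  refine ⟨_, lg fun x => c • f (G x), mem_inter hp (mem_inter hpW hc), inter_subset_left, pc_lg h'.op
    ((((LA.ana hW hf).contDiffOn hW.uniqueDiffOn).comp h'.hol fun x hx => hx.2.2.1).const_smul c)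
    (fun x hx => smul_ne_zero hc0 fun h0 => h4 x hx.1 ((hz _ hx.2.2.1).2 h0))
    (fun x hx => le_of_lt hx.2.2.2) h'.hol hO h'.maps fun Q hQ hQO δ hδ => ?_⟩
  have hK : IsCompact ((Q ∩ (fun y => nsq (c • f y)) ⁻¹' Ici δ) ∩ closure S) :=
    (hQ.of_isClosed_subset ((hn.mono fun y hy => (hQO hy).2.1).preimage_isClosed_of_isClosed
      hQ.isClosed isClosed_Ici) inter_subset_left).inter_right isClosed_closure
  refine ⟨_, hK.image hπ, ?_, fun x hx h6 h7 => ⟨G x, ⟨⟨h7, h6⟩, subset_closure (h2 hx.1)⟩,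
    h1 x hx.1⟩⟩
  rintro _ ⟨y, ⟨⟨y1, y2⟩, y3⟩, rfl⟩
  obtain ⟨x, hx, rfl⟩ := h3 y ⟨hS y (hQO y1).1 y3, (hQO y1).1⟩ fun h6 => by
    have : δ ≤ nsq (c • f y) := y2
    rw [(hz y (hQO y1).2.1).1 h6] at this
    simp [nsq, hδ.not_ge] at this
  rw [h1 x hx]
  exact ⟨hx, hQO y1⟩

/-- A minor of the derivative. -/
noncomputable def mnr {n : ℕ} (A : T →L[ℂ] Y) (M : Y →L[ℂ] Fin n → ℂ) (v : Fin n → T) : ℂ :=
  (Matrix.of fun j => M (A (v j))).det

/-- One more linear form. -/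
noncomputable def cns {n : ℕ} (ξ : Y →L[ℂ] ℂ) (L : Y →L[ℂ] Fin n → ℂ) :
    Y →L[ℂ] Fin (n + 1) → ℂ :=
  ContinuousLinearMap.pi (Fin.cons ξ fun i => (ContinuousLinearMap.proj i).comp L)

theorem cns_apply {n : ℕ} (ξ : Y →L[ℂ] ℂ) (L : Y →L[ℂ] Fin n → ℂ) (y : Y) :
    cns ξ L y = Fin.cons (ξ y) (L y) := funext fun i => Fin.cases rfl (fun _ => rfl) i

theorem apply_fld {n : ℕ} {x : T} (hG : DifferentiableAt ℂ G x) (ξ : Y →L[ℂ] ℂ)
    (L : Y →L[ℂ] Fin n → ℂ) (v : Fin (n + 1) → T) :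
    ξ (fderiv ℂ G x (fld (fun x => L (G x)) v x)) = mnr (fderiv ℂ G x) (cns ξ L) v := by
  have : fderiv ℂ (fun x => L (G x)) x = L.comp (fderiv ℂ G x) :=
    (L.hasFDerivAt.comp x hG.hasFDerivAt).fderiv
  simp only [fld, map_sum, map_smul, smul_eq_mul, sum_cof, mnr, cns_apply, this,
    ContinuousLinearMap.comp_apply]

theorem mnr_cns {n : ℕ} (A : T →L[ℂ] Y) (ξ : Y →L[ℂ] ℂ) (L : Y →L[ℂ] Fin n → ℂ)
    (v : Fin (n + 1) → T) (h0 : ξ (A (v 0)) = 1) (h1 : ∀ j : Fin n, ξ (A (v j.succ)) = 0) :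
    mnr A (cns ξ L) v = mnr A L fun j => v j.succ := by
  simp only [mnr, cns_apply]
  rw [Matrix.det_succ_column_zero, Fin.sum_univ_succ]
  simp only [Matrix.of_apply, Fin.cons_zero, h0, h1, mul_zero, zero_mul, Finset.sum_const_zero,
    add_zero, Fin.val_zero, pow_zero, one_mul]
  rfl

theorem mnr_eq_det {n : ℕ} (b : Basis (Fin n) ℂ T) (A : T →L[ℂ] Y) (M : Y →L[ℂ] Fin n → ℂ) :
    mnr A M b = ((b.equivFunL.symm.toContinuousLinearMap.comp M).comp A).det := by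
  rw [ContinuousLinearMap.det, ← LinearMap.det_toMatrix b, ← Matrix.det_transpose, mnr]
  congr 1
  ext j i
  simp only [Matrix.of_apply, Matrix.transpose_apply, LinearMap.toMatrix_apply]
  exact (congrFun (b.equivFunL.apply_symm_apply (M (A (b j)))) i).symm

theorem continuous_mnr {n : ℕ} (M : Y →L[ℂ] Fin n → ℂ) (v : Fin n → T) :
    Continuous fun A : T →L[ℂ] Y => mnr A M v :=
  Continuous.matrix_det (continuous_pi fun j => by
    change Continuous fun A : T →L[ℂ] Y => M (A (v j))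
    fun_prop)

theorem Gr.measurableSet [MeasurableSpace T] [BorelSpace T] (h : Gr V G O) {Q : Set Y}
    (hQ : IsClosed Q) : MeasurableSet (V ∩ G ⁻¹' Q) := by
  rw [show V ∩ G ⁻¹' Q = V \ (V ∩ G ⁻¹' Qᶜ) by ext; simp +contextual]
  exact h.op.measurableSet.diff
    (h.hol.continuousOn.isOpen_inter_preimage h.op hQ.isOpen_compl).measurableSet

theorem Gr.continuousOn_fderiv (h : Gr V G O) : ContinuousOn (fderiv ℂ G) V :=
  h.hol.continuousOn_fderiv_of_isOpen h.op one_le_two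

variable [FiniteDimensional ℂ T] [FiniteDimensional ℂ Y] [MeasurableSpace T] [BorelSpace T]
  {μ : Measure T} [μ.IsAddHaarMeasure]

/-- All maximal minors are square integrable. -/
def FinM (μ : Measure T) (V : Set T) (G : T → Y) (O : Set Y) : Prop :=
  ∀ (n : ℕ) (b : Basis (Fin n) ℂ T) (M : Y →L[ℂ] Fin n → ℂ) (Q : Set Y), IsCompact Q → Q ⊆ O →
    IntegrableOn (fun x => ‖mnr (fderiv ℂ G x) M b‖ ^ 2) (V ∩ G ⁻¹' Q) μ

theorem finM_of_an (h : Gr V G O) {S : Set Y} (h1 : InjOn G V) (h2 : MapsTo G V S)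
    (h3 : LA.AnOn S O) (h4 : LA.Thin (finrank ℂ T) S) : FinM μ V G O := by
  intro n b M Q hQ hQO
  have : ProperSpace T := FiniteDimensional.proper ℂ T
  have hc : ContinuousOn (fun x => ‖mnr (fderiv ℂ G x) M b‖ ^ 2) V :=
    ((continuous_mnr M b).comp_continuousOn h.continuousOn_fderiv).norm.pow 2
  refine hQ.induction_on (p := fun s =>
    IntegrableOn (fun x => ‖mnr (fderiv ℂ G x) M b‖ ^ 2) (V ∩ G ⁻¹' s) μ) (by simp)
    (fun s t hst ht => ht.mono_set (inter_subset_inter_right _ (preimage_mono hst)))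
    (fun s t hs ht => by rw [preimage_union, inter_union_distrib_left]; exact hs.union ht)
    fun p hp => ?_
  obtain ⟨r, C, hr, h5⟩ := LA.vol Y T μ S univ p (h3 p (hQO hp)) univ_mem (by simpa using h4)
    (b.equivFunL.symm.toContinuousLinearMap.comp M)
  refine ⟨ball p r, mem_nhdsWithin_of_mem_nhds (ball_mem_nhds p hr),
    (hc.mono inter_subset_left).aestronglyMeasurable
      (h.hol.continuousOn.isOpen_inter_preimage h.op isOpen_ball).measurableSet, ?_⟩
  refine lt_of_le_of_lt (le_of_eq ?_) ((h5 G V h.op (h.hol.differentiableOn two_ne_zero) h1 h2 p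
    (mem_ball_self hr) r hr le_rfl).trans_lt (ENNReal.mul_lt_top (by simp) (by simp)))
  simp only [mnr_eq_det, enorm_pow, enorm_norm]

omit [μ.IsAddHaarMeasure] in
theorem finE_of (h : Gr V G O) {Z : T → T} (hZ : ContinuousOn Z V)
    (h1 : ∀ (ξ : Y →L[ℂ] ℂ) (Q : Set Y), IsCompact Q → Q ⊆ O →
      IntegrableOn (fun x => ‖ξ (fderiv ℂ G x (Z x))‖ ^ 2) (V ∩ G ⁻¹' Q) μ) : FinE μ V G O Z := by
  intro Q hQ hQO
  have : ProperSpace T := FiniteDimensional.proper ℂ T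
  let e := (finBasis ℂ Y).equivFunL
  have hm := h.measurableSet hQ.isClosed
  refine Integrable.mono' ((integrable_finsetSum Finset.univ fun i _ =>
    h1 ((ContinuousLinearMap.proj i).comp e.toContinuousLinearMap) Q hQ hQO).const_mul
      (‖e.symm.toContinuousLinearMap‖ ^ 2))
    ((((h.continuousOn_fderiv.clm_apply hZ).norm.pow 2).mono
      inter_subset_left).aestronglyMeasurable hm) (Eventually.of_forall fun x => ?_)
  have h2 := e.symm.toContinuousLinearMap.le_opNorm (e (fderiv ℂ G x (Z x)))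
  simp only [ContinuousLinearEquiv.coe_coe, ContinuousLinearEquiv.symm_apply_apply] at h2
  rw [norm_pow, norm_norm]
  refine (pow_le_pow_left₀ (norm_nonneg _) h2 2).trans ?_
  rw [mul_pow]
  exact mul_le_mul_of_nonneg_left (norm_sq_le_nsq _) (by positivity)

omit [FiniteDimensional ℂ Y] in
theorem Gr.sol (h : Gr V G O) {n : ℕ} (L : Y →L[ℂ] Fin n → ℂ) (v : Fin (n + 1) → T) :
    Sol μ V (fld (fun x => L (G x)) v) := sol_fld h.op (L.contDiff.comp_contDiffOn h.hol) v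

theorem FinM.finE (h : Gr V G O) (hM : FinM μ V G O) {n : ℕ} (b : Basis (Fin (n + 1)) ℂ T)
    (L : Y →L[ℂ] Fin n → ℂ) : FinE μ V G O (fld (fun x => L (G x)) b) :=
  finE_of h (h.sol (μ := μ) L b).hol.continuousOn fun ξ Q hQ hQO =>
    (hM _ b (cns ξ L) Q hQ hQO).congr_fun (fun x hx => by
      simp only [apply_fld ((h.hol.contDiffAt (h.op.mem_nhds hx.1)).differentiableAt two_ne_zero)])
      (h.measurableSet hQ.isClosed)

theorem FinM.finE_succ (h : Gr V G O) (hM : FinM μ V G O) {n : ℕ} (b : Basis (Fin (n + 2)) ℂ T)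
    (L : Y →L[ℂ] Fin n → ℂ) (π : Y →L[ℂ] T) (hπ : ∀ x ∈ V, ∀ v, π (fderiv ℂ G x v) = v) :
    FinE μ V G O (fld (fun x => L (G x)) fun j => b j.succ) :=
  finE_of h (h.sol (μ := μ) L _).hol.continuousOn fun ξ Q hQ hQO =>
    (hM _ b (cns ((b.coord 0).toContinuousLinearMap.comp π) (cns ξ L)) Q hQ hQO).congr_fun
      (fun x hx => by
        simp only [apply_fld ((h.hol.contDiffAt (h.op.mem_nhds hx.1)).differentiableAt two_ne_zero)]
        rw [mnr_cns _ _ _ _ (by simp [hπ x hx.1]) fun j => by simp [hπ x hx.1]])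
      (h.measurableSet hQ.isClosed)

end Pool.Agent.Lib.MP_823829_an.VO

namespace Pool.Agent.Lib.MP_823829_an.VO

open Set Filter Topology Complex MeasureTheory Metric Module

universe u

variable {T : Type} (F : Type) [NormedAddCommGroup T] [NormedSpace ℂ T] [NormedAddCommGroup F]
  [NormedSpace ℂ F] {X : Type u} [TopologicalSpace X] [ChartedSpace F X]

/-- The graph map in a chart. -/
def chG (x₀ : X) (f : T → X) (w : T) : T × F := (w, chartAt F x₀ (f w))

/-- The domain of the graph map. -/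
def chV (x₀ : X) (f : T → X) (V : Set T) : Set T := V ∩ f ⁻¹' (chartAt F x₀).source

variable {F} [FiniteDimensional ℂ T] [FiniteDimensional ℂ F] {f : T → X} {V D : Set T}

omit [FiniteDimensional ℂ T] [FiniteDimensional ℂ F] in
theorem chV_open (hV : IsOpen V) (hf : LA.HolX F f V) (x₀ : X) : IsOpen (chV F x₀ f V) :=
  hf.1.isOpen_inter_preimage hV (chartAt F x₀).open_source

theorem chart_contDiffOn (hV : IsOpen V) (hf : LA.HolX F f V) (x₀ : X) :
    ContDiffOn ℂ 2 (fun w => chartAt F x₀ (f w)) (chV F x₀ f V) :=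
  have : CompleteSpace F := FiniteDimensional.complete ℂ F
  (LA.ana (chV_open hV hf x₀) (hf.2 x₀)).contDiffOn (chV_open hV hf x₀).uniqueDiffOn

theorem gr_chart (hV : IsOpen V) (hf : LA.HolX F f V) (hD : IsOpen D) (hVD : V ⊆ D) (x₀ : X) :
    Gr (chV F x₀ f V) (chG F x₀ f) (D ×ˢ (chartAt F x₀).target) :=
  ⟨chV_open hV hf x₀, contDiffOn_id.prodMk (chart_contDiffOn hV hf x₀),
    hD.prod (chartAt F x₀).open_target, fun _ hx => ⟨hVD hx.1, (chartAt F x₀).map_source hx.2⟩⟩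

theorem fderiv_chG (hV : IsOpen V) (hf : LA.HolX F f V) {x₀ : X} {x : T} (hx : x ∈ chV F x₀ f V)
    (v : T) : fderiv ℂ (chG F x₀ f) x v = (v, fderiv ℂ (fun w => chartAt F x₀ (f w)) x v) := by
  have := ((chart_contDiffOn hV hf x₀).contDiffAt
    ((chV_open hV hf x₀).mem_nhds hx)).differentiableAt two_ne_zero
  exact congrArg (fun L => L v) ((hasFDerivAt_id x).prodMk this.hasFDerivAt).fderiv

variable [T2Space X] [CompactSpace X] {Γ : Set (T × X)}

theorem mer_chart (hD : IsOpen D) (h : LA.GMer F Γ D) (hf : ∀ z ∈ LA.one Γ D, (z, f z) ∈ Γ)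
    (x₀ : X) : LP (chV F x₀ f (LA.one Γ D)) (chG F x₀ f) (D ×ˢ (chartAt F x₀).target) ∧
      ∀ [MeasurableSpace T] [BorelSpace T] (μ : Measure T) [μ.IsAddHaarMeasure],
        FinM μ (chV F x₀ f (LA.one Γ D)) (chG F x₀ f) (D ×ˢ (chartAt F x₀).target) := by
  have s := stX T F X Γ D hD h
  have g := gr_chart s.op (s.hol f hf) hD (fun _ hx => hx.1) x₀
  have h2 : MapsTo (chG F x₀ f) (chV F x₀ f (LA.one Γ D)) (LA.ch F x₀ Γ) := fun x hx =>
    ⟨(chartAt F x₀).map_source hx.2, by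
      simpa only [chG, (chartAt F x₀).left_inv hx.2] using hf x hx.1⟩
  refine ⟨lp_of_an g continuous_fst (fun _ _ => rfl) (fun y hy => (h.an x₀ y hy).mem_of_closure) h2
    (fun y hy h3 => ?_) (fun x hx h3 => h3.2.2.1 hx.1) (s.anSig x₀), fun μ _ =>
    finM_of_an g (fun x _ y _ h => congrArg Prod.fst h) h2 (h.an x₀) (s.thin x₀)⟩
  have h4 : y.1 ∈ LA.one Γ D := by_contra fun h4 => h3 ⟨hy.1.1, hy.1.2, h4, trivial⟩
  have h5 := h4.2.unique (hf _ h4) hy.1.2
  refine ⟨y.1, ⟨h4, ?_⟩, ?_⟩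
  · rw [mem_preimage, h5]; exact (chartAt F x₀).map_target hy.1.1
  · rw [chG, h5, (chartAt F x₀).right_inv hy.1.1]

omit [NormedSpace ℂ T] [FiniteDimensional ℂ T] [T2Space X] [CompactSpace X] [TopologicalSpace X]
  [NormedAddCommGroup T] in
theorem exists_sel [Nonempty X] (Γ : Set (T × X)) (D : Set T) :
    ∃ f : T → X, ∀ z ∈ LA.one Γ D, (z, f z) ∈ Γ := by
  have : ∀ z, ∃ x, z ∈ LA.one Γ D → (z, x) ∈ Γ := fun z => by
    by_cases hz : z ∈ LA.one Γ D
    · exact hz.2.exists.imp fun x hx _ => hx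
    · exact ⟨Classical.arbitrary X, fun h => absurd h hz⟩
  choose f hf using this
  exact ⟨f, hf⟩

/-- Over an open set where it contains the graph of a continuous map, the graph of a meromorphic
map is that graph. -/
theorem eq_of_graph (hD : IsOpen D) (h : LA.GMer F Γ D) {O : Set T} (hO : IsOpen O)
    {g : T → X} (hg : ContinuousOn g O) (h1 : ∀ z ∈ O, (z, g z) ∈ Γ) {z : T} (hz : z ∈ O) {x : X}
    (hx : (z, x) ∈ Γ) : x = g z := by
  have s := stX T F X Γ D hD h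
  rw [s.clos] at hx
  obtain ⟨l, hl, h2⟩ := mem_closure_iff_ultrafilter.1 hx.1
  have h3 : Tendsto Prod.fst (l : Filter (T × X)) (𝓝 z) := (continuous_fst.tendsto _).mono_left h2
  refine tendsto_nhds_unique_of_eventuallyEq ((continuous_snd.tendsto _).mono_left h2)
    ((hg.continuousAt (hO.mem_nhds hz)).tendsto.comp h3) ?_
  filter_upwards [Ultrafilter.mem_coe.2 hl, h3.eventually (hO.mem_nhds hz)] with q q1 q2
  exact q1.2.1.2.unique q1.1 (h1 _ q2)

theorem mem_one_of_graph (hD : IsOpen D) (h : LA.GMer F Γ D) {O : Set T} (hO : IsOpen O)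
    {g : T → X} (hg : ContinuousOn g O) (h1 : ∀ z ∈ O, (z, g z) ∈ Γ) {z : T} (hz : z ∈ O) :
    z ∈ LA.one Γ D :=
  ⟨(h.sub (h1 z hz)).1, g z, h1 z hz, fun _ hx => eq_of_graph hD h hO hg h1 hz hx⟩

end Pool.Agent.Lib.MP_823829_an.VO
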