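import Pool.Agent.Lib.MP_823829_an.VO.Sol

/-!
Cut-off functions of small energy, and integration by parts up to a singular set.
-/

namespace Pool.Agent.Lib.MP_823829_an.VO

open Set Filter Topology Complex MeasureTheory
open scoped ComplexConjugate

/-! ### Profiles -/

noncomputable def st : ℝ → ℝ := Real.smoothTransition
noncomputable def st1 : ℝ → ℝ := deriv st
noncomputable def st2 : ℝ → ℝ := deriv st1
noncomputable def st0 (t : ℝ) : ℝ := ∫ s in (0 : ℝ)..t, st s

theorem st_smooth : ContDiff ℝ 2 st := Real.smoothTransition.contDiff (n := 2)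
theorem st1_smooth : ContDiff ℝ 1 st1 := st_smooth.deriv' (n := 1)
theorem st2_cont : Continuous st2 := st1_smooth.continuous_deriv le_rfl
theorem st_der (t : ℝ) : HasDerivAt st (st1 t) t :=
  (st_smooth.differentiable two_ne_zero t).hasDerivAt
theorem st1_der (t : ℝ) : HasDerivAt st1 (st2 t) t :=
  (st1_smooth.differentiable one_ne_zero t).hasDerivAt
theorem st0_der (t : ℝ) : HasDerivAt st0 (st t) t :=
  (st_smooth.continuous.integral_hasStrictDerivAt 0 t).hasDerivAt
theorem st_nonneg (t : ℝ) : 0 ≤ st t := Real.smoothTransition.nonneg t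
theorem st_le (t : ℝ) : st t ≤ 1 := Real.smoothTransition.le_one t
theorem st_zero {t : ℝ} (h : t ≤ 0) : st t = 0 := Real.smoothTransition.zero_of_nonpos h
theorem st_one {t : ℝ} (h : 1 ≤ t) : st t = 1 := Real.smoothTransition.one_of_one_le h
theorem st1_nonneg (t : ℝ) : 0 ≤ st1 t := Real.smoothTransition.monotone.deriv_nonneg

theorem st1_zero {t : ℝ} (h : t ∉ Icc (0 : ℝ) 1) : st1 =ᶠ[𝓝 t] fun _ => 0 := by
  filter_upwards [isClosed_Icc.isOpen_compl.mem_nhds h] with s hs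
  rcases not_and_or.1 hs with h1 | h1
  · have : st =ᶠ[𝓝 s] fun _ => 0 :=
      (eventually_lt_nhds (not_le.1 h1)).mono fun _ h2 => st_zero h2.le
    simp [st1, this.deriv_eq]
  · have : st =ᶠ[𝓝 s] fun _ => 1 :=
      (eventually_gt_nhds (not_le.1 h1)).mono fun _ h2 => st_one h2.le
    simp [st1, this.deriv_eq]

theorem st2_zero {t : ℝ} (h : t ∉ Icc (0 : ℝ) 1) : st2 t = 0 := by
  simp [st2, (st1_zero h).deriv_eq]

theorem st0_zero {t : ℝ} (h : t ≤ 0) : st0 t = 0 := by
  rw [st0, intervalIntegral.integral_congr (g := fun _ => 0) fun s hs => st_zero ?_]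
  · simp
  · exact hs.2.trans (max_le le_rfl h)

theorem st0_le {t : ℝ} (h : t ≤ 3) : |st0 t| ≤ 3 := by
  rcases le_total t 0 with h0 | h0
  · simp [st0_zero h0]
  have := intervalIntegral.norm_integral_le_of_norm_le_const (a := 0) (b := t) (C := 1) (f := st)
    fun s _ => by rw [Real.norm_of_nonneg (st_nonneg s)]; exact st_le s
  rw [one_mul, sub_zero, abs_of_nonneg h0] at this
  exact this.trans h

theorem st_bound {q : ℝ → ℝ} (hq : Continuous q) (h : ∀ t ∉ Icc (0 : ℝ) 1, q t = 0) :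
    ∃ C, 0 ≤ C ∧ ∀ t, |q t| ≤ C * st (t + 1) := by
  obtain ⟨C, hC⟩ := isCompact_Icc.exists_bound_of_continuousOn (s := Icc (0 : ℝ) 1) hq.continuousOn
  have h0 : 0 ≤ C := (norm_nonneg _).trans (hC 0 (by simp))
  refine ⟨C, h0, fun t => ?_⟩
  by_cases ht : t ∈ Icc (0 : ℝ) 1
  · rw [st_one (by linarith [ht.1]), mul_one]; exact hC t ht
  · rw [h t ht, abs_zero]; exact mul_nonneg h0 (st_nonneg _)

theorem der_aff {f : ℝ → ℝ} {f' : ℝ} (c K t : ℝ) (h : HasDerivAt f f' (c - t / K)) :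
    HasDerivAt (fun t => f (c - t / K)) (-(f' / K)) t := by
  exact (h.comp t (((hasDerivAt_id t).div_const K).const_sub c)).congr_deriv (by ring)

variable {E : Type*} [NormedAddCommGroup E] [NormedSpace ℂ E]

/-- A function which behaves like `log (- log |h|²)` for a holomorphic map `h`. -/
structure Exh (V : Set E) (l : E → ℝ) : Prop where
  sm : ContDiffOn ℝ 2 l V
  nn : ∀ x ∈ V, 0 ≤ l x
  le : ∀ x ∈ V, ∀ v, (levi (fun y => (l y : ℂ)) x v v).re ≤ -‖pd (fun y => (l y : ℂ)) x v‖ ^ 2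

/-- The support of `a` leaves the compact subsets of `V` only where `l` tends to infinity. -/
def Ad {α : Type*} [Zero α] (V : Set E) (l : E → ℝ) (a : E → α) : Prop :=
  ∀ M : ℝ, ∃ K, IsCompact K ∧ K ⊆ V ∧ ∀ x ∈ V, l x ≤ M → a x ≠ 0 → x ∈ K

/-- The cut-off function. -/
noncomputable def cut (l : E → ℝ) (K : ℝ) (x : E) : ℂ := (st (2 - l x / K) : ℝ)

omit [NormedSpace ℂ E] in
theorem Ad.mono {α β : Type*} [Zero α] [Zero β] {V : Set E} {l : E → ℝ} {a : E → α} {b : E → β}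
    (h : Ad V l a) (hb : ∀ x ∈ V, a x = 0 → b x = 0) : Ad V l b := fun M =>
  let ⟨K, h1, h2, h3⟩ := h M
  ⟨K, h1, h2, fun x hx hM h0 => h3 x hx hM fun h4 => h0 (hb x hx h4)⟩

omit [NormedSpace ℂ E] in
theorem Ad.mono' {α β : Type*} [Zero α] [Zero β] {V : Set E} (hV : IsOpen V) {l : E → ℝ}
    (hl : ContinuousOn l V) {a : E → α} {b : E → β} (h : Ad V l a)
    (hb : ∀ x ∈ V, a =ᶠ[𝓝 x] (fun _ => 0) → b x = 0) : Ad V l b := fun M => by
  obtain ⟨K, h1, h2, h3⟩ := h (M + 1)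
  refine ⟨K, h1, h2, fun x hx hM h0 => by_contra fun hK => h0 (hb x hx ?_)⟩
  filter_upwards [hV.mem_nhds hx, h1.isClosed.isOpen_compl.mem_nhds hK,
    (hl.continuousAt (hV.mem_nhds hx)).eventually (eventually_le_nhds (by linarith : l x < M + 1))]
    with y y1 y2 y3
  exact by_contra fun h4 => y2 (h3 y y1 y3 h4)

omit [NormedSpace ℂ E] in
theorem Ad.cpt {V : Set E} {l : E → ℝ} {a b : E → ℂ} (h : Ad V l a) (M : ℝ)
    (hb : ∀ x ∈ V, M < l x → b x = 0) : Cpt V fun x => a x * b x :=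
  let ⟨K, h1, h2, h3⟩ := h M
  ⟨K, h1, h2, fun x hx h0 => h3 x hx (not_lt.1 fun h4 => h0 (by simp [hb x hx h4]))
    fun h4 => h0 (by simp [h4])⟩

theorem Exh.mono {V W : Set E} {l : E → ℝ} (h : Exh V l) (hW : W ⊆ V) : Exh W l :=
  ⟨h.sm.mono hW, fun x hx => h.nn x (hW hx), fun x hx => h.le x (hW hx)⟩

theorem Exh.levi_outer {V : Set E} (hV : IsOpen V) {l : E → ℝ} (h : Exh V l) {S S' : ℝ → ℝ}
    {s : ℝ} {x : E} (hx : x ∈ V) (hS : ∀ t, HasDerivAt S (S' t) t) (hS' : HasDerivAt S' s (l x))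
    (h0 : S' (l x) ≤ 0) (v : E) : (s - S' (l x)) * ‖pd (fun y => (l y : ℂ)) x v‖ ^ 2
      ≤ (levi (fun y => (S (l y) : ℂ)) x v v).re := by
  rw [VO.levi_outer hS hS' (h.sm.contDiffAt (hV.mem_nhds hx)), mul_assoc, mul_conj', add_re,
    re_ofReal_mul, re_ofReal_mul, ← ofReal_pow, ofReal_re]
  nlinarith [mul_le_mul_of_nonpos_left (h.le x hx v) h0]

theorem contDiffOn_cut {V : Set E} {l : E → ℝ} (h : ContDiffOn ℝ 2 l V) (K : ℝ) :
    ContDiffOn ℝ 2 (cut l K) V :=
  ofRealCLM.contDiff.comp_contDiffOn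
    (st_smooth.comp_contDiffOn (contDiffOn_const.sub (h.div_const K)))

omit [NormedAddCommGroup E] [NormedSpace ℂ E] in
theorem norm_cut_le (l : E → ℝ) (K : ℝ) (x : E) : ‖cut l K x‖ ≤ 1 := by
  rw [cut, norm_real, Real.norm_of_nonneg (st_nonneg _)]; exact st_le _

omit [NormedAddCommGroup E] [NormedSpace ℂ E] in
theorem cut_zero {l : E → ℝ} {K : ℝ} (hK : 0 < K) {x : E} (h : 2 * K < l x) : cut l K x = 0 := by
  rw [cut, st_zero (sub_nonpos.2 ((le_div_iff₀ hK).2 h.le)), ofReal_zero]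

omit [NormedAddCommGroup E] [NormedSpace ℂ E] in
theorem cut_eventually (l : E → ℝ) (x : E) : ∀ᶠ K in atTop, cut l K x = 1 := by
  filter_upwards [eventually_ge_atTop (l x), eventually_gt_atTop 0] with K h1 h2
  rw [cut, st_one (by linarith [(div_le_one h2).2 h1]), ofReal_one]

theorem pd_cut {l : E → ℝ} {x : E} (h : DifferentiableAt ℝ l x) (K : ℝ) (v : E) :
    pd (cut l K) x v = (-(st1 (2 - l x / K) / K) : ℝ) * pd (fun y => (l y : ℂ)) x v :=
  pd_outer (S := fun t => st (2 - t / K)) (der_aff 2 K _ (st_der _)) h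

theorem norm_pb_cut (l : E → ℝ) (K : ℝ) (x v : E) : ‖pb (cut l K) x v‖ = ‖pd (cut l K) x v‖ := by
  have := pb_real (x := x) (v := v) fun y => st (2 - l y / K)
  rw [show pb (cut l K) x v = _ from this, RCLike.norm_conj]
  rfl

variable [MeasurableSpace E] [BorelSpace E] {μ : Measure E} [μ.IsAddHaarMeasure] {V : Set E}
  {Z : E → E} {l χ : E → ℝ}

theorem Sol.parts_pd (hZ : Sol μ V Z) {a b : E → ℂ} (ha : ContDiffOn ℝ 1 a V)
    (hb : ContDiffOn ℝ 1 b V) (h1 : Cpt V fun x => a x * b x)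
    (h2 : Cpt V fun x => pd a x (Z x) * b x) (h3 : Cpt V fun x => a x * pd b x (Z x)) :
    ∫ x in V, a x * pd b x (Z x) ∂μ = -∫ x in V, pd a x (Z x) * b x ∂μ := by
  have hV := hZ.op
  rw [eq_neg_iff_add_eq_zero, add_comm, ← integral_add
    (h2.integrableOn hV ((continuousOn_pd hV ha hZ.hol.continuousOn).mul hb.continuousOn))
    (h3.integrableOn hV (ha.continuousOn.mul (continuousOn_pd hV hb hZ.hol.continuousOn))),
    ← hZ.int _ (ha.mul hb) h1]
  exact setIntegral_congr_fun hV.measurableSet fun x hx =>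
    (pd_mul ((ha.contDiffAt (hV.mem_nhds hx)).differentiableAt one_ne_zero)
      ((hb.contDiffAt (hV.mem_nhds hx)).differentiableAt one_ne_zero)).symm

theorem Sol.parts_pb (hZ : Sol μ V Z) {a b : E → ℂ} (ha : ContDiffOn ℝ 1 a V)
    (hb : ContDiffOn ℝ 1 b V) (h1 : Cpt V fun x => a x * b x)
    (h2 : Cpt V fun x => pb a x (Z x) * b x) (h3 : Cpt V fun x => a x * pb b x (Z x)) :
    ∫ x in V, a x * pb b x (Z x) ∂μ = -∫ x in V, pb a x (Z x) * b x ∂μ := by
  have hV := hZ.op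
  rw [eq_neg_iff_add_eq_zero, add_comm, ← integral_add
    (h2.integrableOn hV ((continuousOn_pb hV ha hZ.hol.continuousOn).mul hb.continuousOn))
    (h3.integrableOn hV (ha.continuousOn.mul (continuousOn_pb hV hb hZ.hol.continuousOn))),
    ← hZ.int_pb (ha.mul hb) h1]
  exact setIntegral_congr_fun hV.measurableSet fun x hx =>
    (pb_mul ((ha.contDiffAt (hV.mem_nhds hx)).differentiableAt one_ne_zero)
      ((hb.contDiffAt (hV.mem_nhds hx)).differentiableAt one_ne_zero)).symm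

omit [BorelSpace E] [μ.IsAddHaarMeasure] in
theorem Sol.contDiffOn_pd (hZ : Sol μ V Z) {a : E → ℂ} (ha : ContDiffOn ℝ 2 a V) :
    ContDiffOn ℝ 1 (fun x => pd a x (Z x)) V := fun _ hx =>
  (contDiffAt_pd (n := 1) (ha.contDiffAt (hZ.op.mem_nhds hx))
    ((hZ.hol.restrict_scalars ℝ).contDiffAt (hZ.op.mem_nhds hx))).contDiffWithinAt

omit [BorelSpace E] [μ.IsAddHaarMeasure] in
theorem Sol.pb_pd (hZ : Sol μ V Z) {a : E → ℂ} (ha : ContDiffOn ℝ 2 a V) {x : E} (hx : x ∈ V)
    (w : E) : pb (fun x => pd a x (Z x)) x w = levi a x (Z x) w :=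
  pb_pd_field (ha.contDiffAt (hZ.op.mem_nhds hx))
    ((hZ.hol.contDiffAt (hZ.op.mem_nhds hx)).differentiableAt one_ne_zero)

omit [BorelSpace E] [μ.IsAddHaarMeasure] in
theorem Sol.continuousOn_levi (hZ : Sol μ V Z) {a : E → ℂ} (ha : ContDiffOn ℝ 2 a V) {W : E → E}
    (hW : ContinuousOn W V) : ContinuousOn (fun x => levi a x (Z x) (W x)) V :=
  (continuousOn_pb hZ.op (hZ.contDiffOn_pd ha) hW).congr fun _ hx => (hZ.pb_pd ha hx _).symm

/-- The formula of Green for a weight `χ` and a function vanishing where `l` is large. -/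
theorem Sol.green (hZ : Sol μ V Z) (hl : ContinuousOn l V) (hχ : ContDiffOn ℝ 2 χ V)
    (hA : Ad V l χ) {b : E → ℂ} (hb : ContDiffOn ℝ 2 b V) {M : ℝ}
    (h0 : ∀ x ∈ V, M < l x → b x = 0) :
    ∫ x in V, χ x * levi b x (Z x) (Z x) ∂μ
      = ∫ x in V, b x * conj (levi (fun y => (χ y : ℂ)) x (Z x) (Z x)) ∂μ := by
  have hV := hZ.op
  have hc : ContDiffOn ℝ 2 (fun y => (χ y : ℂ)) V := ofRealCLM.contDiff.comp_contDiffOn hχ
  have hA' : Ad V l fun y => (χ y : ℂ) := hA.mono fun x _ h => by simp [h]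
  have e0 : ∀ x ∈ V, M < l x → b =ᶠ[𝓝 x] fun _ => 0 := fun x hx hM => by
    filter_upwards [hV.mem_nhds hx,
      (hl.continuousAt (hV.mem_nhds hx)).eventually (eventually_gt_nhds hM)] with y y1 y2
    exact h0 y y1 y2
  have e1 : ∀ x ∈ V, M < l x → (fun y => pd b y (Z y)) =ᶠ[𝓝 x] fun _ => 0 := fun x hx hM =>
    (e0 x hx hM).eventually_nhds.mono fun y hy => (pd_congr hy).trans (pd_const 0)
  have hB : Ad V l fun x => pb (fun y => (χ y : ℂ)) x (Z x) :=
    hA'.mono' hV hl fun x _ h => by rw [pb_congr h, pb_const]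
  have hC : Ad V l fun x => pd (fun x => pb (fun y => (χ y : ℂ)) x (Z x)) x (Z x) :=
    hB.mono' hV hl fun x _ h => by rw [pd_congr h, pd_const]
  have hd : ContDiffOn ℝ 1 (fun x => pb (fun y => (χ y : ℂ)) x (Z x)) V := by
    simp only [pb_real]
    exact conjCLE.contDiff.comp_contDiffOn (hZ.contDiffOn_pd hc)
  have k1 := hZ.parts_pb (hc.of_le one_le_two) (hZ.contDiffOn_pd hb)
    (hA'.cpt M fun x hx hM => (e1 x hx hM).self_of_nhds)
    (hB.cpt M fun x hx hM => (e1 x hx hM).self_of_nhds)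
    (hA'.cpt M fun x hx hM => by rw [pb_congr (e1 x hx hM), pb_const])
  have k2 := hZ.parts_pd hd (hb.of_le one_le_two) (hB.cpt M h0) (hC.cpt M h0)
    (hB.cpt M fun x hx hM => (e1 x hx hM).self_of_nhds)
  rw [k2, neg_neg] at k1
  refine Eq.trans (setIntegral_congr_fun hV.measurableSet fun x hx => ?_)
    (k1.trans (setIntegral_congr_fun hV.measurableSet fun x hx => ?_))
  · simp only [hZ.pb_pd hb hx]
  · simp only [pb_real, pd_conj, hZ.pb_pd hc hx, mul_comm]

/-- A weight for the energy of the cut-off functions along `Z`. -/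
structure Wt (μ : Measure E) (V : Set E) (l : E → ℝ) (Z : E → E) (χ : E → ℝ) : Prop where
  sol : Sol μ V Z
  exh : Exh V l
  sm : ContDiffOn ℝ 2 χ V
  nn : ∀ x ∈ V, 0 ≤ χ x
  ad : Ad V l χ
  int : IntegrableOn (fun x => levi (fun y => (χ y : ℂ)) x (Z x) (Z x)) V μ

theorem Wt.integrableOn (h : Wt μ V l Z χ) {q : ℝ → ℝ} (hq : Continuous q) {M : ℝ}
    (h0 : ∀ t, M < t → q t = 0) :
    IntegrableOn (fun x => χ x * (q (l x) * ‖pd (fun y => (l y : ℂ)) x (Z x)‖ ^ 2)) V μ := by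
  obtain ⟨K, h1, h2, h3⟩ := h.ad M
  refine Cpt.integrableOn h.sol.op ⟨K, h1, h2, fun x hx h4 => h3 x hx
    (not_lt.1 fun h5 => h4 (by simp [h0 _ h5])) fun h5 => h4 (by simp [h5])⟩ ?_
  exact h.sm.continuousOn.mul ((hq.comp_continuousOn h.exh.sm.continuousOn).mul
    ((continuousOn_pd h.sol.op (ofRealCLM.contDiff.comp_contDiffOn (h.exh.sm.of_le one_le_two))
      h.sol.hol.continuousOn).norm.pow 2))

theorem Wt.green (h : Wt μ V l Z χ) {S S' S'' : ℝ → ℝ} (hS : ∀ t, HasDerivAt S (S' t) t)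
    (hS' : ∀ t, HasDerivAt S' (S'' t) t) (hc : Continuous S'') (hn : ∀ t, S' t ≤ 0) {M : ℝ}
    (h0 : ∀ t, M < t → S t = 0) :
    ∫ x in V, χ x * ((S'' (l x) - S' (l x)) * ‖pd (fun y => (l y : ℂ)) x (Z x)‖ ^ 2) ∂μ
      ≤ (∫ x in V, S (l x) * conj (levi (fun y => (χ y : ℂ)) x (Z x) (Z x)) ∂μ).re := by
  have e1 : deriv S = S' := funext fun t => (hS t).deriv
  have e2 : deriv S' = S'' := funext fun t => (hS' t).deriv
  have h1 : ContDiff ℝ 2 S := by
    refine (contDiff_succ_iff_deriv (n := 1)).2 ⟨fun t => (hS t).differentiableAt, by simp, ?_⟩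
    rw [e1, contDiff_one_iff_deriv, e2]
    exact ⟨fun t => (hS' t).differentiableAt, hc⟩
  have z : ∀ {f : ℝ → ℝ}, (∀ t, M < t → f t = 0) → ∀ t, M < t → deriv f t = 0 := fun hf t ht => by
    rw [EventuallyEq.deriv_eq ((eventually_gt_nhds ht).mono hf)]; simp
  have z1 := e1 ▸ z h0
  have z2 := e2 ▸ z z1
  have hb : ContDiffOn ℝ 2 (fun x => (S (l x) : ℂ)) V :=
    ofRealCLM.contDiff.comp_contDiffOn (h1.comp_contDiffOn h.exh.sm)
  have i1 : IntegrableOn (fun x => χ x * levi (fun x => (S (l x) : ℂ)) x (Z x) (Z x)) V μ := by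
    refine ((h.ad.mono (b := fun y => (χ y : ℂ)) fun x _ h => by simp [h]).cpt M
      fun x hx hM => ?_).integrableOn h.sol.op ((continuous_ofReal.comp_continuousOn
        h.sm.continuousOn).mul (h.sol.continuousOn_levi hb h.sol.hol.continuousOn))
    have : (fun x => (S (l x) : ℂ)) =ᶠ[𝓝 x] fun _ => 0 :=
      ((h.exh.sm.continuousOn.continuousAt (h.sol.op.mem_nhds hx)).eventually
        (eventually_gt_nhds hM)).mono fun y hy => by simp [h0 _ hy]
    rw [levi_congr this]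
    simp [levi]
  rw [← h.sol.green h.exh.sm.continuousOn h.sm h.ad hb (M := M) fun x _ hx => by simp [h0 _ hx],
    ← reCLM_apply, ← reCLM.integral_comp_comm i1]
  refine setIntegral_mono_on (h.integrableOn (q := fun t => S'' t - S' t)
    (hc.sub (continuous_iff_continuousAt.2 fun t => (hS' t).continuousAt)) (M := M)
    fun t ht => by simp [z1 t ht, z2 t ht]) i1.re h.sol.op.measurableSet fun x hx => ?_
  rw [reCLM_apply, re_ofReal_mul]
  exact mul_le_mul_of_nonneg_left (h.exh.levi_outer h.sol.op hx hS (hS' _) (hn _) _) (h.nn x hx)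

theorem Wt.shell (h : Wt μ V l Z χ) {K : ℝ} (hK : 0 < K) :
    ∫ x in V, χ x * (st (3 - l x / K) * ‖pd (fun y => (l y : ℂ)) x (Z x)‖ ^ 2) ∂μ
      ≤ 3 * K * ∫ x in V, ‖levi (fun y => (χ y : ℂ)) x (Z x) (Z x)‖ ∂μ := by
  have hs := st_smooth.continuous
  have hs1 := st1_smooth.continuous
  have z : ∀ t, 3 * K < t → 3 - t / K < 0 := fun t ht => sub_neg.2 ((lt_div_iff₀ hK).2 ht)
  have h1 := h.green (S := fun t => K * st0 (3 - t / K)) (S' := fun t => -st (3 - t / K))
    (S'' := fun t => st1 (3 - t / K) / K)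
    (fun t => ((der_aff 3 K t (st0_der _)).const_mul K).congr_deriv (by field_simp))
    (fun t => (der_aff 3 K t (st_der _)).fun_neg.congr_deriv (neg_neg _)) (by fun_prop)
    (fun t => neg_nonpos.2 (st_nonneg _)) (M := 3 * K)
    fun t ht => by simp [st0_zero (z t ht).le]
  refine le_trans (setIntegral_mono_on
    (h.integrableOn (q := fun t => st (3 - t / K)) (by fun_prop) fun t ht => st_zero (z t ht).le)
    (h.integrableOn (q := fun t => st1 (3 - t / K) / K - -st (3 - t / K)) (by fun_prop) (M := 3 * K)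
      fun t ht => by
        simp [st_zero (z t ht).le, (st1_zero fun h => h.1.not_gt (z t ht)).self_of_nhds])
    h.sol.op.measurableSet fun x hx => ?_) ?_
  · have := div_nonneg (st1_nonneg (3 - l x / K)) hK.le
    have := h.nn x hx
    gcongr
    linarith
  rw [← integral_const_mul]
  refine h1.trans <| (re_le_norm _).trans (norm_integral_le_of_norm_le (h.int.norm.const_mul _) ?_)
  filter_upwards [ae_restrict_mem h.sol.op.measurableSet] with x hx
  rw [norm_mul, RCLike.norm_conj, norm_real, Real.norm_eq_abs, abs_mul, abs_of_pos hK, mul_comm 3]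
  have := st0_le (t := 3 - l x / K) (by linarith [div_nonneg (h.exh.nn x hx) hK.le])
  gcongr

theorem Wt.tendsto_sq (h : Wt μ V l Z χ) {q : ℝ → ℝ} (hq : Continuous q)
    (h0 : ∀ t ∉ Icc (0 : ℝ) 1, q t = 0) :
    Tendsto (fun K : ℝ => ∫ x in V, χ x * (|q (2 - l x / K)| / K / K
      * ‖pd (fun y => (l y : ℂ)) x (Z x)‖ ^ 2) ∂μ) atTop (𝓝 0) := by
  obtain ⟨C, hC, h1⟩ := st_bound hq h0
  have hs := st_smooth.continuous
  refine squeeze_zero' ?_ ?_ (tendsto_const_nhds.div_atTop tendsto_id (a := C * 3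
    * ∫ x in V, ‖levi (fun y => (χ y : ℂ)) x (Z x) (Z x)‖ ∂μ))
  · filter_upwards [eventually_gt_atTop 0] with K hK
    exact setIntegral_nonneg h.sol.op.measurableSet fun x hx => by
      have := h.nn x hx
      positivity
  filter_upwards [eventually_gt_atTop 0] with K hK
  have z : ∀ t, 3 * K < t → 3 - t / K < 0 := fun t ht => sub_neg.2 ((lt_div_iff₀ hK).2 ht)
  refine le_trans (setIntegral_mono_on
    (h.integrableOn (q := fun t => |q (2 - t / K)| / K / K) (by fun_prop) (M := 3 * K)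
      fun t ht => by simp [h0 (2 - t / K) fun h => by linarith [h.1, z t ht]])
    ((h.integrableOn (q := fun t => st (3 - t / K)) (by fun_prop)
      fun t ht => st_zero (z t ht).le).const_mul (C / K / K))
    h.sol.op.measurableSet fun x hx => ?_) ?_
  · have h2 := h1 (2 - l x / K)
    rw [show 2 - l x / K + 1 = 3 - l x / K by ring] at h2
    have := h.nn x hx
    calc _ ≤ χ x * (C * st (3 - l x / K) / K / K * ‖pd (fun y => (l y : ℂ)) x (Z x)‖ ^ 2) := by
          gcongr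
      _ = _ := by ring
  rw [integral_const_mul]
  refine (mul_le_mul_of_nonneg_left (h.shell hK) (by positivity)).trans (le_of_eq ?_)
  simp only [id]
  field_simp

/-- The energy of the cut-off functions tends to zero. -/
theorem Wt.energy (h : Wt μ V l Z χ) :
    Tendsto (fun K : ℝ => ∫ x in V, χ x * ‖pd (cut l K) x (Z x)‖ ^ 2 ∂μ) atTop (𝓝 0) := by
  refine (h.tendsto_sq (q := fun t => st1 t ^ 2) (st1_smooth.continuous.pow 2)
    fun t ht => by simp [(st1_zero ht).self_of_nhds]).congr fun K =>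
      setIntegral_congr_fun h.sol.op.measurableSet fun x hx => ?_
  simp only [pd_cut ((h.exh.sm.contDiffAt (h.sol.op.mem_nhds hx)).differentiableAt two_ne_zero),
    norm_mul, norm_real, Real.norm_eq_abs, mul_pow, sq_abs, abs_pow]
  ring

theorem Wt.integrableOn_energy (h : Wt μ V l Z χ) {K : ℝ} (hK : 0 < K) :
    IntegrableOn (fun x => χ x * ‖pd (cut l K) x (Z x)‖ ^ 2) V μ := by
  have := st1_smooth.continuous
  refine (h.integrableOn (q := fun t => (st1 (2 - t / K) / K) ^ 2) (by fun_prop) (M := 2 * K)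
    fun t ht => ?_).congr_fun (fun x hx => ?_) h.sol.op.measurableSet
  · simp [(st1_zero fun h => h.1.not_gt (sub_neg.2 ((lt_div_iff₀ hK).2 ht))).self_of_nhds]
  · simp only [pd_cut ((h.exh.sm.contDiffAt (h.sol.op.mem_nhds hx)).differentiableAt two_ne_zero),
      norm_mul, norm_real, Real.norm_eq_abs, mul_pow, sq_abs, neg_sq]

/-- The error term in the integration by parts tends to zero. -/
theorem Wt.cross (h : Wt μ V l Z χ) {u : E → ℝ} (h1 : ∀ x ∈ V, u x ≠ 0 → 1 ≤ χ x)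
    (h2 : IntegrableOn (fun x => u x ^ 2) V μ) :
    Tendsto (fun K : ℝ => ∫⁻ x in V, ‖u x * ‖pd (cut l K) x (Z x)‖‖ₑ ∂μ) atTop (𝓝 0) := by
  refine ENNReal.tendsto_nhds_zero.2 fun ε hε => ?_
  obtain ⟨δ, hδ, h3⟩ : ∃ δ : ℝ, 0 < δ ∧ ENNReal.ofReal (δ * ∫ x in V, u x ^ 2 ∂μ + δ) ≤ ε := by
    have : Tendsto (fun δ : ℝ => ENNReal.ofReal (δ * ∫ x in V, u x ^ 2 ∂μ + δ)) (𝓝[>] 0) (𝓝 0) := by
      have : Continuous fun δ : ℝ => ENNReal.ofReal (δ * ∫ x in V, u x ^ 2 ∂μ + δ) :=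
        ENNReal.continuous_ofReal.comp (by fun_prop)
      simpa using (this.tendsto 0).mono_left nhdsWithin_le_nhds
    exact (eventually_mem_nhdsWithin.and (ENNReal.tendsto_nhds_zero.1 this ε hε)).exists
  filter_upwards [eventually_gt_atTop 0, h.energy.eventually_le_const (mul_pos hδ hδ)] with K hK h4
  have h5 := (h2.const_mul δ).add ((h.integrableOn_energy hK).div_const δ)
  have h6 : ∀ x ∈ V, |u x * ‖pd (cut l K) x (Z x)‖|
      ≤ δ * u x ^ 2 + χ x * ‖pd (cut l K) x (Z x)‖ ^ 2 / δ := fun x hx => by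
    rcases eq_or_ne (u x) 0 with h0 | h0
    · have := h.nn x hx
      simp only [h0, zero_mul, abs_zero]
      positivity
    have h7 := h1 x hx h0
    rw [abs_mul, abs_norm, ← sq_abs (u x), ← sub_le_iff_le_add', le_div_iff₀ hδ]
    nlinarith [sq_nonneg (δ * |u x| - ‖pd (cut l K) x (Z x)‖), sq_nonneg (δ * |u x|),
      sq_nonneg ‖pd (cut l K) x (Z x)‖]
  refine le_trans ?_ h3
  calc _ ≤ ∫⁻ x in V, ENNReal.ofReal (δ * u x ^ 2 + χ x * ‖pd (cut l K) x (Z x)‖ ^ 2 / δ) ∂μ :=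
        setLIntegral_mono' h.sol.op.measurableSet fun x hx => by
          rw [← ofReal_norm]
          exact ENNReal.ofReal_le_ofReal (h6 x hx)
    _ = ENNReal.ofReal (∫ x in V, (δ * u x ^ 2 + χ x * ‖pd (cut l K) x (Z x)‖ ^ 2 / δ) ∂μ) :=
        (ofReal_integral_eq_lintegral_ofReal h5 ((ae_restrict_mem h.sol.op.measurableSet).mono
          fun x hx => (abs_nonneg _).trans (h6 x hx))).symm
    _ ≤ _ := by
        rw [integral_add (h2.const_mul δ) ((h.integrableOn_energy hK).div_const δ),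
          integral_const_mul, integral_div]
        exact ENNReal.ofReal_le_ofReal (add_le_add le_rfl ((div_le_iff₀ hδ).2 h4))

omit [NormedSpace ℂ E] [μ.IsAddHaarMeasure] in
theorem tendsto_cut (hV : IsOpen V) (hl : ContinuousOn l V) {f : E → ℂ} (hf : IntegrableOn f V μ) :
    Tendsto (fun K : ℝ => ∫ x in V, cut l K x * f x ∂μ) atTop (𝓝 (∫ x in V, f x ∂μ)) := by
  have hs := st_smooth.continuous
  refine tendsto_integral_filter_of_dominated_convergence _ (Eventually.of_forall fun K => ?_)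
    (Eventually.of_forall fun K => Eventually.of_forall fun x => ?_) hf.norm
    (Eventually.of_forall fun x => tendsto_const_nhds.congr' ?_)
  · refine (ContinuousOn.aestronglyMeasurable ?_ hV.measurableSet).mul hf.1
    unfold cut
    fun_prop
  · rw [norm_mul]
    exact mul_le_of_le_one_left (norm_nonneg _) (norm_cut_le l K x)
  · filter_upwards [cut_eventually l x] with K hK
    rw [hK, one_mul]

omit [NormedAddCommGroup E] [NormedSpace ℂ E] [BorelSpace E] in
theorem tendsto_of_lintegral {ν : Measure E} {f : ℝ → E → ℂ}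
    (h : Tendsto (fun K => ∫⁻ x, ‖f K x‖ₑ ∂ν) atTop (𝓝 0)) :
    Tendsto (fun K => ∫ x, f K x ∂ν) atTop (𝓝 0) := by
  rw [tendsto_zero_iff_enorm_tendsto_zero]
  exact tendsto_of_tendsto_of_tendsto_of_le_of_le tendsto_const_nhds h (fun _ => zero_le)
    fun K => enorm_integral_le_lintegral_enorm _

/-- Integration by parts up to the singular set. -/
theorem Wt.stokes_pb (h : Wt μ V l Z χ) {u : E → ℂ} (hu : ContDiffOn ℝ 1 u V)
    (h1 : ∀ x ∈ V, u x ≠ 0 → 1 ≤ χ x) (h2 : IntegrableOn (fun x => ‖u x‖ ^ 2) V μ)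
    (h3 : IntegrableOn (fun x => pb u x (Z x)) V μ) : ∫ x in V, pb u x (Z x) ∂μ = 0 := by
  have hV := h.sol.op
  have hl := h.exh.sm.continuousOn
  have hA : Ad V l u := h.ad.mono fun x hx h0 => by_contra fun h4 => by linarith [h1 x hx h4]
  have hB : Ad V l fun x => pb u x (Z x) := hA.mono' hV hl fun x _ h => by rw [pb_congr h, pb_const]
  have h4 := tendsto_of_lintegral (ν := μ.restrict V) (f := fun K x => u x * pb (cut l K) x (Z x))
    ((h.cross (u := fun x => ‖u x‖) (by simpa using h1) h2).congr fun K => by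
      simp only [← ofReal_norm, norm_mul, norm_norm, norm_pb_cut])
  refine neg_eq_zero.1 (tendsto_nhds_unique (tendsto_cut hV hl h3).neg (h4.congr' ?_))
  filter_upwards [eventually_gt_atTop 0] with K hK
  rw [h.sol.parts_pb hu ((contDiffOn_cut h.exh.sm K).of_le one_le_two)
    (hA.cpt _ fun x _ hx => cut_zero hK hx) (hB.cpt _ fun x _ hx => cut_zero hK hx)
    (hA.cpt (2 * K) fun x hx hM => ?_)]
  · simp only [mul_comm]
  · have : cut l K =ᶠ[𝓝 x] fun _ => 0 :=
      ((hl.continuousAt (hV.mem_nhds hx)).eventually (eventually_gt_nhds hM)).mono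
        fun y hy => cut_zero hK hy
    rw [pb_congr this, pb_const]

theorem Wt.stokes_pd (h : Wt μ V l Z χ) {u : E → ℂ} (hu : ContDiffOn ℝ 1 u V)
    (h1 : ∀ x ∈ V, u x ≠ 0 → 1 ≤ χ x) (h2 : IntegrableOn (fun x => ‖u x‖ ^ 2) V μ)
    (h3 : IntegrableOn (fun x => pd u x (Z x)) V μ) : ∫ x in V, pd u x (Z x) ∂μ = 0 := by
  have := h.stokes_pb (u := fun x => conj (u x)) (conjCLE.contDiff.comp_contDiffOn hu)
    (by simpa using h1) (by simpa using h2)
    (by simp only [pb_conj]; exact conjCLE.toContinuousLinearMap.integrable_comp h3)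
  simpa only [pb_conj, integral_conj, map_eq_zero] using this

end Pool.Agent.Lib.MP_823829_an.VO
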