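import Pool.Agent.Lib.MP_823829_an.VO.Piece

/-!
The function `log (- log |h|²)` for a holomorphic function `h`.
-/

namespace Pool.Agent.Lib.MP_823829_an.VO

open Set Filter Topology Complex MeasureTheory
open scoped ComplexConjugate

variable {E Y : Type*} [NormedAddCommGroup E] [NormedSpace ℂ E] [NormedAddCommGroup Y]
  [NormedSpace ℂ Y]

theorem levi_outer' {S S' : ℝ → ℝ} {s : ℝ} {u : E → ℝ} {x v w : E}
    (hS : ∀ᶠ t in 𝓝 (u x), HasDerivAt S (S' t) t) (hS' : HasDerivAt S' s (u x))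
    (hu : ContDiffAt ℝ 2 u x) :
    levi (fun y => (S (u y) : ℂ)) x v w
      = s * pd (fun y => (u y : ℂ)) x v * conj (pd (fun y => (u y : ℂ)) x w)
        + S' (u x) * levi (fun y => (u y : ℂ)) x v w := by
  have h1 : (fun y => pd (fun y => (S (u y) : ℂ)) y v) =ᶠ[𝓝 x]
      fun y => (S' (u y) : ℂ) * pd (fun y => (u y : ℂ)) y v := by
    filter_upwards [hu.eventually (by simp), hu.continuousAt.eventually hS] with y h1 h2
    exact pd_outer h2 (h1.differentiableAt two_ne_zero)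
  have du := hu.differentiableAt two_ne_zero
  have d1 : DifferentiableAt ℝ (fun y => (S' (u y) : ℂ)) x :=
    ofRealCLM.differentiableAt.comp x (hS'.differentiableAt.comp x du)
  have d2 := diff_pd (contDiffAt_ofReal hu) (differentiableAt_const v)
  rw [levi, pb_congr h1, pb_mul d1 d2, pb_outer hS' du, pb_real]
  simp only [levi]
  ring

theorem pd_normSq {h : E → ℂ} {x : E} (hh : DifferentiableAt ℂ h x) (v : E) :
    pd (fun y => ((‖h y‖ ^ 2 : ℝ) : ℂ)) x v = fderiv ℂ h x v * conj (h x) := by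
  have e : (fun y => ((‖h y‖ ^ 2 : ℝ) : ℂ)) = fun y => h y * conj (h y) := by
    funext y; rw [mul_conj']; push_cast; rfl
  have h1 := hh.restrictScalars ℝ
  rw [e, pd_mul h1 (diff_conj h1), pd_conj, pd_hol hh, pb_hol hh]
  simp

theorem levi_normSq {h : E → ℂ} {x : E} (hh : ContDiffAt ℂ 2 h x) (v w : E) :
    levi (fun y => ((‖h y‖ ^ 2 : ℝ) : ℂ)) x v w = fderiv ℂ h x v * conj (fderiv ℂ h x w) := by
  have h1 : (fun y => pd (fun y => ((‖h y‖ ^ 2 : ℝ) : ℂ)) y v) =ᶠ[𝓝 x]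
      fun y => fderiv ℂ h y v * conj (h y) := by
    filter_upwards [hh.eventually (by simp)] with y h1
    exact pd_normSq (h1.differentiableAt two_ne_zero) v
  have d1 := hh.differentiableAt two_ne_zero
  have d2 : DifferentiableAt ℂ (fun y => fderiv ℂ h y v) x :=
    ((hh.fderiv_right (m := 1) (by norm_num)).differentiableAt one_ne_zero).clm_apply
      (differentiableAt_const v)
  rw [levi, pb_congr h1, pb_mul (d2.restrictScalars ℝ) (diff_conj (d1.restrictScalars ℝ)),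
    pb_hol d2, pb_conj, pd_hol d1]
  simp

/-- The square of the Euclidean norm. -/
noncomputable def nsq {ι : Type*} [Fintype ι] (y : ι → ℂ) : ℝ := ∑ i, ‖y i‖ ^ 2

section
variable {ι : Type*} [Fintype ι] {h : E → ι → ℂ} {x : E}

theorem nsq_nonneg (y : ι → ℂ) : 0 ≤ nsq y := Finset.sum_nonneg fun _ _ => by positivity

theorem norm_sq_le_nsq (y : ι → ℂ) : ‖y‖ ^ 2 ≤ nsq y := by
  rw [← Real.le_sqrt (norm_nonneg _) (nsq_nonneg y), pi_norm_le_iff_of_nonneg (Real.sqrt_nonneg _)]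
  exact fun i => Real.le_sqrt_of_sq_le
    (Finset.single_le_sum (f := fun i => ‖y i‖ ^ 2) (fun _ _ => by positivity) (Finset.mem_univ i))

theorem nsq_le (y : ι → ℂ) : nsq y ≤ Fintype.card ι * ‖y‖ ^ 2 := by
  simpa [nsq] using Finset.sum_le_card_nsmul Finset.univ (fun i => ‖y i‖ ^ 2) (‖y‖ ^ 2)
    fun i _ => pow_le_pow_left₀ (norm_nonneg _) (norm_le_pi_norm y i) 2

theorem nsq_pos {y : ι → ℂ} (hy : y ≠ 0) : 0 < nsq y :=
  (pow_pos (norm_pos_iff.2 hy) 2).trans_le (norm_sq_le_nsq y)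

theorem contDiffAt_nsq {n : ℕ} (hh : ContDiffAt ℂ n h x) : ContDiffAt ℝ n (fun y => nsq (h y)) x :=
  ContDiffAt.sum fun i _ => ((contDiffAt_pi.1 hh i).restrict_scalars ℝ).norm_sq ℝ

theorem pd_nsq (hh : DifferentiableAt ℂ h x) (v : E) :
    pd (fun y => (nsq (h y) : ℂ)) x v = ∑ i, fderiv ℂ h x v i * conj (h x i) := by
  have h1 := differentiableAt_pi.1 hh
  simp only [nsq, ofReal_sum]
  rw [pd_sum (f := fun i y => ((‖h y i‖ ^ 2 : ℝ) : ℂ)) fun i _ =>
    ofRealCLM.differentiableAt.comp x (((h1 i).restrictScalars ℝ).norm_sq ℝ)]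
  refine Finset.sum_congr rfl fun i _ => (pd_normSq (h1 i) v).trans ?_
  rw [fderiv_apply hh]
  rfl

theorem levi_nsq (hh : ContDiffAt ℂ 2 h x) (v w : E) :
    levi (fun y => (nsq (h y) : ℂ)) x v w = ∑ i, fderiv ℂ h x v i * conj (fderiv ℂ h x w i) := by
  have h1 : (fun y => pd (fun y => (nsq (h y) : ℂ)) y v) =ᶠ[𝓝 x]
      fun y => ∑ i, fderiv ℂ h y v i * conj (h y i) := by
    filter_upwards [hh.eventually (by simp)] with y h1
    exact pd_nsq (h1.differentiableAt two_ne_zero) v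
  have d0 := hh.differentiableAt two_ne_zero
  have d1 := differentiableAt_pi.1 d0
  have d2 := differentiableAt_pi.1
    (((hh.fderiv_right (m := 1) (by norm_num)).differentiableAt one_ne_zero).clm_apply
      (differentiableAt_const v))
  rw [levi, pb_congr h1, pb_sum fun i _ =>
    ((d2 i).restrictScalars ℝ).fun_mul (diff_conj ((d1 i).restrictScalars ℝ))]
  refine Finset.sum_congr rfl fun i _ => ?_
  rw [pb_mul ((d2 i).restrictScalars ℝ) (diff_conj ((d1 i).restrictScalars ℝ)), pb_hol (d2 i),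
    pb_conj, pd_hol (d1 i), fderiv_apply d0]
  simp

theorem sum_mul_conj (a : ι → ℂ) : ∑ i, a i * conj (a i) = (nsq a : ℂ) := by
  simp [nsq, mul_conj']

theorem norm_sum_sq_le (a b : ι → ℂ) : ‖∑ i, a i * conj (b i)‖ ^ 2 ≤ nsq a * nsq b := by
  refine le_trans (pow_le_pow_left₀ (norm_nonneg _) (norm_sum_le _ _) 2) ?_
  simpa [nsq] using Finset.sum_mul_sq_le_sq_mul_sq Finset.univ (fun i => ‖a i‖) fun i => ‖b i‖

theorem levi_log_nonneg (hh : ContDiffAt ℂ 2 h x) (h0 : h x ≠ 0) (v : E) :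
    0 ≤ (levi (fun y => (Real.log (nsq (h y)) : ℂ)) x v v).re := by
  have h1 := nsq_pos h0
  rw [levi_outer' (u := fun y => nsq (h y)) (S' := fun t => t⁻¹)
    ((eventually_ne_nhds h1.ne').mono fun t ht => Real.hasDerivAt_log ht) (hasDerivAt_inv h1.ne')
    (contDiffAt_nsq hh), mul_assoc, mul_conj', pd_nsq (hh.differentiableAt two_ne_zero),
    levi_nsq hh, sum_mul_conj, add_re, re_ofReal_mul, re_ofReal_mul, ← ofReal_pow, ofReal_re,
    ofReal_re]
  have h2 := norm_sum_sq_le (fderiv ℂ h x v) (h x)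
  rw [neg_mul, neg_add_eq_sub, sub_nonneg, inv_mul_le_iff₀ (by positivity)]
  refine h2.trans (le_of_eq ?_)
  field_simp

/-- The exhaustion attached to a holomorphic map. -/
noncomputable def lg (h : E → ι → ℂ) (x : E) : ℝ := Real.log (-Real.log (nsq (h x)))

theorem log_le {c : ℝ} (h0 : 0 < c) (h1 : c ≤ 1 / 4) : Real.log c ≤ -1 := by
  have h2 : Real.log c ≤ Real.log ((1 / 2) ^ 2) := Real.log_le_log h0 (by linarith)
  rw [Real.log_pow (1 / 2), one_div, Real.log_inv] at h2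
  have := Real.log_two_gt_d9
  push_cast at h2
  linarith

theorem exh_lg {V : Set E} (hV : IsOpen V) (hh : ContDiffOn ℂ 2 h V)
    (h0 : ∀ x ∈ V, h x ≠ 0) (h1 : ∀ x ∈ V, nsq (h x) ≤ 1 / 4) : Exh V (lg h) := by
  have hu : ∀ x ∈ V, ContDiffAt ℝ 2 (fun x => Real.log (nsq (h x))) x := fun x hx =>
    (contDiffAt_nsq (hh.contDiffAt (hV.mem_nhds hx))).log (nsq_pos (h0 x hx)).ne'
  have h2 := fun x hx => log_le (nsq_pos (h0 x hx)) (h1 x hx)
  refine ⟨fun x hx => ((hu x hx).neg.log (by linarith [h2 x hx])).contDiffWithinAt,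
    fun x hx => Real.log_nonneg (by linarith [h2 x hx]), fun x hx v => ?_⟩
  have h3 : Real.log (nsq (h x)) ≠ 0 := by linarith [h2 x hx]
  simp only [lg, Real.log_neg_eq_log]
  rw [levi_outer' (u := fun x => Real.log (nsq (h x))) (S' := fun t => t⁻¹)
    ((eventually_ne_nhds h3).mono fun t ht => Real.hasDerivAt_log ht) (hasDerivAt_inv h3) (hu x hx),
    pd_outer (u := fun x => Real.log (nsq (h x))) (Real.hasDerivAt_log h3)
      ((hu x hx).differentiableAt two_ne_zero), mul_assoc, mul_conj', add_re, re_ofReal_mul,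
    re_ofReal_mul, ← ofReal_pow, ofReal_re, norm_mul, norm_real, mul_pow, Real.norm_eq_abs, sq_abs,
    inv_pow, neg_mul]
  exact add_le_of_nonpos_right (mul_nonpos_of_nonpos_of_nonneg
    (inv_nonpos.2 (by linarith [h2 x hx]))
    (levi_log_nonneg (hh.contDiffAt (hV.mem_nhds hx)) (h0 x hx) v))

omit [NormedAddCommGroup E] [NormedSpace ℂ E] in
theorem le_of_lg (M : ℝ) : ∃ δ > 0, ∀ (h : E → ι → ℂ) (x : E), h x ≠ 0 → nsq (h x) ≤ 1 / 4 →
    lg h x ≤ M → δ ≤ nsq (h x) := by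
  refine ⟨Real.exp (-Real.exp M), Real.exp_pos _, fun h x h0 h1 h2 => ?_⟩
  have h3 := (Real.log_le_iff_le_exp (by linarith [log_le (nsq_pos h0) h1])).1 h2
  exact (Real.le_log_iff_exp_le (nsq_pos h0)).1 (by linarith)

/-- A piece given by a holomorphic map `h` whose zeros contain the singular set. -/
theorem pc_lg {V : Set E} (hV : IsOpen V) (hh : ContDiffOn ℂ 2 h V)
    (h0 : ∀ x ∈ V, h x ≠ 0) (h1 : ∀ x ∈ V, nsq (h x) ≤ 1 / 4) {G : E → Y}
    (hG : ContDiffOn ℂ 2 G V) {O : Set Y} (hO : IsOpen O) (hm : MapsTo G V O)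
    (hp : ∀ Q, IsCompact Q → Q ⊆ O → ∀ δ > 0, ∃ K, IsCompact K ∧ K ⊆ V ∧
      ∀ x ∈ V, δ ≤ nsq (h x) → G x ∈ Q → x ∈ K) : Pc V (lg h) G O := by
  refine ⟨⟨hV, hG, hO, hm⟩, exh_lg hV hh h0 h1, fun Q hQ hQO M => ?_⟩
  obtain ⟨δ, hδ, h2⟩ := le_of_lg (E := E) (ι := ι) M
  obtain ⟨K, k1, k2, k3⟩ := hp Q hQ hQO δ hδ
  exact ⟨K, k1, k2, fun x hx h3 => k3 x hx (h2 h x (h0 x hx) (h1 x hx) h3)⟩

end

end Pool.Agent.Lib.MP_823829_an.VO
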