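import Pool.Agent.Lib.MP_823829_an.VO.Cut

/-!
Integration by parts on the graph of a holomorphic map with locally finite volume.
-/

namespace Pool.Agent.Lib.MP_823829_an.VO

open Set Filter Topology Complex MeasureTheory Manifold
open scoped ComplexConjugate

variable {E Y : Type*} [NormedAddCommGroup E] [NormedSpace ℂ E] [NormedAddCommGroup Y]
  [NormedSpace ℂ Y]

theorem norm_wirt_le (L : E →L[ℝ] ℂ) (v : E) {c : ℂ} (hc : ‖c‖ = 1) :
    ‖(L v + c * L (I • v)) / 2‖ ≤ ‖L‖ * ‖v‖ := by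
  have h1 := L.le_opNorm v
  have h2 := L.le_opNorm (I • v)
  have h3 := norm_add_le (L v) (c * L (I • v))
  simp only [norm_smul, norm_I, one_mul, norm_mul, hc] at h2 h3
  rw [norm_div, Complex.norm_two]
  linarith

theorem norm_pd_le (a : E → ℂ) (x v : E) : ‖pd a x v‖ ≤ ‖fderiv ℝ a x‖ * ‖v‖ := by
  simpa only [pd, neg_mul, ← sub_eq_add_neg] using
    norm_wirt_le (fderiv ℝ a x) v (c := -I) (by simp)

theorem norm_pb_le (a : E → ℂ) (x v : E) : ‖pb a x v‖ ≤ ‖fderiv ℝ a x‖ * ‖v‖ :=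
  norm_wirt_le (fderiv ℝ a x) v norm_I

theorem norm_levi_le {a : E → ℂ} {x : E} (h : ContDiffAt ℝ 2 a x) (v w : E) :
    ‖levi a x v w‖ ≤ ‖fderiv ℝ (fderiv ℝ a) x‖ * ‖v‖ * ‖w‖ := by
  refine (norm_pb_le _ _ _).trans (mul_le_mul_of_nonneg_right ?_ (norm_nonneg _))
  refine ContinuousLinearMap.opNorm_le_bound _ (by positivity) fun u => ?_
  have h1 := norm_wirt_le (fderiv ℝ (fderiv ℝ a) x u) v (c := -I) (by simp)
  have h2 := (fderiv ℝ (fderiv ℝ a) x).le_opNorm u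
  rw [fderiv_pd h (differentiableAt_const v)]
  simp only [fderiv_fun_const, Pi.zero_apply, zero_apply, pd_zero_vec, add_zero]
  simp only [neg_mul, ← sub_eq_add_neg] at h1
  calc _ ≤ _ := h1
    _ ≤ ‖fderiv ℝ (fderiv ℝ a) x‖ * ‖u‖ * ‖v‖ := by gcongr
    _ = _ := by ring

theorem exists_bump [FiniteDimensional ℂ Y] {Q O : Set Y} (hQ : IsCompact Q) (hO : IsOpen O)
    (h : Q ⊆ O) : ∃ (Ψ : Y → ℝ) (Q' : Set Y), IsCompact Q' ∧ Q' ⊆ O ∧ ContDiff ℝ 2 Ψ ∧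
      (∀ y ∈ Q, Ψ =ᶠ[𝓝 y] fun _ => 1) ∧ (∀ y ∉ Q', Ψ y = 0) ∧ ∀ y, Ψ y ∈ Icc 0 1 := by
  have : FiniteDimensional ℝ Y := Module.Finite.trans ℂ Y
  have : ProperSpace Y := FiniteDimensional.proper ℝ Y
  obtain ⟨Q', h1, h2, h3⟩ := exists_compact_between hQ hO h
  obtain ⟨f, f1, f2, f3⟩ :=
    exists_contMDiffMap_one_nhds_of_subset_interior (n := 2) 𝓘(ℝ, Y) hQ.isClosed h2
  exact ⟨f, Q', h1, h3, f.contMDiff.contDiff, fun y hy => f1.filter_mono (nhds_le_nhdsSet hy), f2,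
    f3⟩

theorem exists_partition [FiniteDimensional ℂ Y] {Q : Set Y} (hQ : IsCompact Q) {U : Y → Set Y}
    (hU : ∀ p ∈ Q, IsOpen (U p) ∧ p ∈ U p) : ∃ (s : Finset Q) (ρ : Q → Y → ℝ),
      (∀ p, ContDiff ℝ 2 (ρ p) ∧ tsupport (ρ p) ⊆ U p) ∧ ∀ y ∈ Q, ∑ p ∈ s, ρ p y = 1 := by
  have : FiniteDimensional ℝ Y := Module.Finite.trans ℂ Y
  have : ProperSpace Y := FiniteDimensional.proper ℝ Y
  obtain ⟨f, hf⟩ := SmoothPartitionOfUnity.exists_isSubordinate 𝓘(ℝ, Y) hQ.isClosed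
    (fun p : Q => U p) (fun p => (hU p p.2).1) fun y hy => mem_iUnion.2 ⟨⟨y, hy⟩, (hU y hy).2⟩
  have h1 := f.locallyFinite.finite_nonempty_inter_compact hQ
  refine ⟨h1.toFinset, fun p => f p, fun p => ⟨(f p).contMDiff.contDiff.of_le
    (WithTop.coe_le_coe.2 (le_top (a := (2 : ℕ∞)))), hf p⟩,
    fun y hy => ?_⟩
  rw [← f.sum_eq_one hy, finsum_eq_sum_of_support_subset]
  exact fun p hp => by simpa using ⟨y, hp, hy⟩

/-- A holomorphic map `G : V → O`. -/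
structure Gr (V : Set E) (G : E → Y) (O : Set Y) : Prop where
  op : IsOpen V
  hol : ContDiffOn ℂ 2 G V
  opO : IsOpen O
  maps : MapsTo G V O

/-- A holomorphic map `G : V → O` which is proper away from the poles of `l`. -/
structure Pc (V : Set E) (l : E → ℝ) (G : E → Y) (O : Set Y) : Prop extends Gr V G O where
  exh : Exh V l
  prop : ∀ Q, IsCompact Q → Q ⊆ O → ∀ M : ℝ, ∃ K, IsCompact K ∧ K ⊆ V ∧
    ∀ x ∈ V, l x ≤ M → G x ∈ Q → x ∈ K

/-- The same, locally on `O`. -/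
structure LP (V : Set E) (G : E → Y) (O : Set Y) : Prop extends Gr V G O where
  loc : ∀ p ∈ O, ∃ O' l, p ∈ O' ∧ O' ⊆ O ∧ Pc (V ∩ G ⁻¹' O') l G O'

theorem Gr.mono {V : Set E} {G : E → Y} {O O' : Set Y} (h : Gr V G O) (hO : IsOpen O') :
    Gr (V ∩ G ⁻¹' O') G O' :=
  ⟨h.hol.continuousOn.isOpen_inter_preimage h.op hO, h.hol.mono inter_subset_left, hO,
    fun _ hx => hx.2⟩

theorem Pc.mono {V : Set E} {l : E → ℝ} {G : E → Y} {O O' : Set Y} (h : Pc V l G O)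
    (hO : IsOpen O') (h' : O' ⊆ O) : Pc (V ∩ G ⁻¹' O') l G O' := by
  refine ⟨h.toGr.mono hO, h.exh.mono inter_subset_left, fun Q hQ hQO M => ?_⟩
  obtain ⟨K, h1, h2, h3⟩ := h.prop Q hQ (hQO.trans h') M
  exact ⟨K ∩ G ⁻¹' Q, h1.of_isClosed_subset
    ((h.hol.continuousOn.mono h2).preimage_isClosed_of_isClosed h1.isClosed hQ.isClosed)
    inter_subset_left, fun x hx => ⟨h2 hx.1, hQO hx.2⟩,
    fun x hx h4 h5 => ⟨h3 x hx.1 h4 h5, h5⟩⟩

theorem Pc.lp {V : Set E} {l : E → ℝ} {G : E → Y} {O : Set Y} (h : Pc V l G O) : LP V G O :=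
  ⟨h.toGr, fun _ hp => ⟨O, l, hp, Subset.rfl, h.mono h.opO Subset.rfl⟩⟩

theorem LP.mono {V : Set E} {G : E → Y} {O O' : Set Y} (h : LP V G O) (hO : IsOpen O')
    (h' : O' ⊆ O) : LP (V ∩ G ⁻¹' O') G O' := by
  refine ⟨h.toGr.mono hO, fun p hp => ?_⟩
  obtain ⟨U, l, h1, h2, h3⟩ := h.loc p (h' hp)
  refine ⟨U ∩ O', l, ⟨h1, hp⟩, inter_subset_right, ?_⟩
  convert h3.mono (h3.opO.inter hO) inter_subset_left using 1
  ext x
  simp only [mem_inter_iff, mem_preimage]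
  tauto

variable [MeasurableSpace E]

/-- The derivative of `G` along `Z` is square integrable over the compact subsets of `O`. -/
def FinE (μ : Measure E) (V : Set E) (G : E → Y) (O : Set Y) (Z : E → E) : Prop :=
  ∀ Q, IsCompact Q → Q ⊆ O →
    IntegrableOn (fun x => ‖fderiv ℂ G x (Z x)‖ ^ 2) (V ∩ G ⁻¹' Q) μ

theorem FinE.mono {μ : Measure E} {V V' : Set E} {G : E → Y} {O O' : Set Y} {Z : E → E}
    (h : FinE μ V G O Z) (hV : V' ⊆ V) (hO : O' ⊆ O) : FinE μ V' G O' Z := fun Q hQ h1 =>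
  (h Q hQ (h1.trans hO)).mono_set (inter_subset_inter_left _ hV)

variable [BorelSpace E] {μ : Measure E} [μ.IsAddHaarMeasure] {V : Set E} {Z Z' : E → E}
  {l : E → ℝ} {G : E → Y} {O Q : Set Y}

omit [μ.IsAddHaarMeasure] in
theorem Gr.integrableOn {F : Type*} [NormedAddCommGroup F] (h : Gr V G O)
    (hZ : FinE μ V G O Z) (hZ' : FinE μ V G O Z') (hQ : IsCompact Q) (hQO : Q ⊆ O) {f : E → F}
    (hf : ContinuousOn f V) {c : Y → ℝ} (hc : ContinuousOn c O)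
    (h0 : ∀ x ∈ V, G x ∉ Q → f x = 0)
    (h1 : ∀ x ∈ V, ‖f x‖ ≤ c (G x) * ‖fderiv ℂ G x (Z x)‖ * ‖fderiv ℂ G x (Z' x)‖)
    [SecondCountableTopologyEither E F] : IntegrableOn f V μ := by
  obtain ⟨C, hC⟩ := hQ.exists_bound_of_continuousOn (hc.mono hQO)
  have hm : MeasurableSet (V ∩ G ⁻¹' Q) := by
    rw [show V ∩ G ⁻¹' Q = V \ (V ∩ G ⁻¹' Qᶜ) by ext; simp +contextual]
    exact h.op.measurableSet.diff (h.hol.continuousOn.isOpen_inter_preimage h.op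
      hQ.isClosed.isOpen_compl).measurableSet
  refine IntegrableOn.of_forall_sdiff_eq_zero (s := V ∩ G ⁻¹' Q) ?_ h.op.measurableSet
    fun x hx => h0 x hx.1 fun h2 => hx.2 ⟨hx.1, h2⟩
  refine Integrable.mono' (((hZ Q hQ hQO).add (hZ' Q hQ hQO)).const_mul C)
    ((hf.mono inter_subset_left).aestronglyMeasurable hm) ((ae_restrict_mem hm).mono fun x hx => ?_)
  have h2 := (le_abs_self _).trans (hC _ hx.2)
  have h3 := (norm_nonneg _).trans (hC _ hx.2)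
  refine (h1 x hx.1).trans ?_
  rw [mul_assoc]
  refine (mul_le_mul_of_nonneg_right h2 (by positivity)).trans (mul_le_mul_of_nonneg_left ?_ h3)
  simp only [Pi.add_apply]
  nlinarith [sq_nonneg (‖fderiv ℂ G x (Z x)‖ - ‖fderiv ℂ G x (Z' x)‖),
    norm_nonneg (fderiv ℂ G x (Z x)), norm_nonneg (fderiv ℂ G x (Z' x))]

omit [MeasurableSpace E] [BorelSpace E] in
theorem Gr.zero_near (h : Gr V G O) (hQ : IsCompact Q) {α : Type*} [Zero α] {A : Y → α}
    (h0 : ∀ y ∈ O, y ∉ Q → A y = 0) {x : E} (hx : x ∈ V) (hx' : G x ∉ Q) :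
    A =ᶠ[𝓝 (G x)] fun _ => 0 := by
  filter_upwards [h.opO.mem_nhds (h.maps hx), hQ.isClosed.isOpen_compl.mem_nhds hx'] with y y1 y2
  exact h0 y y1 y2

omit [MeasurableSpace E] [BorelSpace E] in
theorem Gr.comp (h : Gr V G O) {F : Type*} [NormedAddCommGroup F] [NormedSpace ℝ F] {n : ℕ}
    (hn : n ≤ 2) {A : Y → F} (hA : ContDiffOn ℝ n A O) : ContDiffOn ℝ n (fun x => A (G x)) V :=
  hA.comp ((h.hol.restrict_scalars ℝ).of_le (by exact_mod_cast hn)) h.maps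

omit [MeasurableSpace E] [BorelSpace E] in
theorem Gr.pd_comp (h : Gr V G O) {A : Y → ℂ} (hA : ContDiffOn ℝ 1 A O) {x : E} (hx : x ∈ V)
    (v : E) : pd (fun x => A (G x)) x v = pd A (G x) (fderiv ℂ G x v) :=
  VO.pd_comp ((hA.contDiffAt (h.opO.mem_nhds (h.maps hx))).differentiableAt one_ne_zero)
    ((h.hol.contDiffAt (h.op.mem_nhds hx)).differentiableAt two_ne_zero)

omit [MeasurableSpace E] [BorelSpace E] in
theorem Gr.pb_comp (h : Gr V G O) {A : Y → ℂ} (hA : ContDiffOn ℝ 1 A O) {x : E} (hx : x ∈ V)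
    (v : E) : pb (fun x => A (G x)) x v = pb A (G x) (fderiv ℂ G x v) :=
  VO.pb_comp ((hA.contDiffAt (h.opO.mem_nhds (h.maps hx))).differentiableAt one_ne_zero)
    ((h.hol.contDiffAt (h.op.mem_nhds hx)).differentiableAt two_ne_zero)

omit [MeasurableSpace E] [BorelSpace E] in
theorem Gr.levi_comp (h : Gr V G O) {A : Y → ℂ} (hA : ContDiffOn ℝ 2 A O) {x : E} (hx : x ∈ V)
    (v w : E) : levi (fun x => A (G x)) x v w = levi A (G x) (fderiv ℂ G x v) (fderiv ℂ G x w) :=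
  VO.levi_comp (hA.contDiffAt (h.opO.mem_nhds (h.maps hx))) (h.hol.contDiffAt (h.op.mem_nhds hx))

omit [NormedAddCommGroup E] [NormedSpace ℂ E] [MeasurableSpace E] [BorelSpace E] in
theorem levi_zero {A : Y → ℂ} {y : Y} (h : A =ᶠ[𝓝 y] fun _ => 0) (v w : Y) : levi A y v w = 0 := by
  rw [levi_congr h]; simp [levi]

omit [μ.IsAddHaarMeasure] in
theorem Gr.integrableOn_levi [SecondCountableTopology E] (h : Gr V G O) (hs : Sol μ V Z)
    (hs' : ContinuousOn Z' V) (hZ : FinE μ V G O Z) (hZ' : FinE μ V G O Z') (hQ : IsCompact Q)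
    (hQO : Q ⊆ O) {A B : Y → ℂ} (hA : ContinuousOn A O) (hB : ContDiffOn ℝ 2 B O)
    (h0 : ∀ x ∈ V, G x ∉ Q → A (G x) = 0 ∨ B =ᶠ[𝓝 (G x)] fun _ => 0) :
    IntegrableOn (fun x => A (G x) * levi B (G x) (fderiv ℂ G x (Z x)) (fderiv ℂ G x (Z' x)))
      V μ := by
  refine h.integrableOn hZ hZ' hQ hQO ((hA.comp h.hol.continuousOn h.maps).mul
    ((hs.continuousOn_levi (h.comp le_rfl hB) hs').congr fun x hx => (h.levi_comp hB hx _ _).symm))
    (c := fun y => ‖A y‖ * ‖fderiv ℝ (fderiv ℝ B) y‖) (hA.norm.mul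
      ((hB.fderiv_of_isOpen (m := 1) h.opO (by norm_num)).continuousOn_fderiv_of_isOpen h.opO
        le_rfl).norm) (fun x hx h1 => ?_) fun x hx => ?_
  · rcases h0 x hx h1 with h2 | h2
    · simp [h2]
    · simp [levi_zero h2]
  · rw [norm_mul, mul_assoc, mul_assoc, ← mul_assoc ‖fderiv ℝ (fderiv ℝ B) (G x)‖]
    exact mul_le_mul_of_nonneg_left
      (norm_levi_le (hB.contDiffAt (h.opO.mem_nhds (h.maps hx))) _ _) (norm_nonneg _)

omit [μ.IsAddHaarMeasure] in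
theorem Pc.wt [SecondCountableTopology E] (h : Pc V l G O) (hs : Sol μ V Z) (hZ : FinE μ V G O Z)
    (hQ : IsCompact Q) (hQO : Q ⊆ O) {Ψ : Y → ℝ} (hΨ : ContDiffOn ℝ 2 Ψ O)
    (hn : ∀ y ∈ O, 0 ≤ Ψ y) (h0 : ∀ y ∈ O, y ∉ Q → Ψ y = 0) : Wt μ V l Z fun x => Ψ (G x) := by
  have hc : ContDiffOn ℝ 2 (fun y => (Ψ y : ℂ)) O := ofRealCLM.contDiff.comp_contDiffOn hΨ
  refine ⟨hs, h.exh, h.comp le_rfl hΨ, fun x hx => hn _ (h.maps hx), fun M => ?_, ?_⟩
  · obtain ⟨K, h1, h2, h3⟩ := h.prop Q hQ hQO M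
    exact ⟨K, h1, h2, fun x hx h4 h5 => h3 x hx h4 (by_contra fun h6 => h5 (h0 _ (h.maps hx) h6))⟩
  · refine (h.integrableOn_levi hs hs.hol.continuousOn hZ hZ hQ hQO (A := fun _ => 1)
      continuousOn_const hc fun x hx h1 => Or.inr (h.zero_near hQ (fun y y1 y2 => ?_) hx h1)).congr_fun
      (fun x hx => ?_) h.op.measurableSet
    · simp [h0 y y1 y2]
    · simp only [one_mul, h.levi_comp hc hx]

variable [FiniteDimensional ℂ E] [FiniteDimensional ℂ Y]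

omit [μ.IsAddHaarMeasure] [FiniteDimensional ℂ Y] in
theorem Gr.integrableOn_parts (h : Gr V G O) (hs : Sol μ V Z) (hs' : ContinuousOn Z' V)
    (hZ : FinE μ V G O Z) (hZ' : FinE μ V G O Z') (hQ : IsCompact Q) (hQO : Q ⊆ O) {A B : Y → ℂ}
    (hA : ContDiffOn ℝ 1 A O) (hB : ContDiffOn ℝ 2 B O) (h0 : ∀ y ∈ O, y ∉ Q → A y = 0) :
    IntegrableOn (fun x => pb A (G x) (fderiv ℂ G x (Z' x)) * pd B (G x) (fderiv ℂ G x (Z x)))
      V μ := by
  have : ProperSpace E := FiniteDimensional.proper ℂ E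
  have hB1 : ContDiffOn ℝ 1 B O := hB.of_le one_le_two
  refine h.integrableOn hZ hZ' hQ hQO (((continuousOn_pb h.op (h.comp one_le_two hA) hs').mul
    (hs.contDiffOn_pd (h.comp le_rfl hB)).continuousOn).congr
      fun x hx => by simp only [h.pb_comp hA hx, h.pd_comp hB1 hx, Pi.mul_apply])
    ((hA.continuousOn_fderiv_of_isOpen h.opO le_rfl).norm.mul
      (hB1.continuousOn_fderiv_of_isOpen h.opO le_rfl).norm) (fun x hx h1 => ?_) fun x hx => ?_
  · rw [pb_congr (h.zero_near hQ h0 hx h1), pb_const, zero_mul]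
  · rw [norm_mul]
    refine (mul_le_mul (norm_pb_le _ _ _) (norm_pd_le _ _ _) (norm_nonneg _)
      (by positivity)).trans (le_of_eq ?_)
    simp only [Pi.mul_apply]
    ring

theorem Pc.parts (h : Pc V l G O) (hs : Sol μ V Z) (hs' : Sol μ V Z') (hZ : FinE μ V G O Z)
    (hZ' : FinE μ V G O Z') (hQ : IsCompact Q) (hQO : Q ⊆ O) {A B : Y → ℂ}
    (hA : ContDiffOn ℝ 1 A O) (hB : ContDiffOn ℝ 2 B O) (h0 : ∀ y ∈ O, y ∉ Q → A y = 0) :
    ∫ x in V, (pb A (G x) (fderiv ℂ G x (Z' x)) * pd B (G x) (fderiv ℂ G x (Z x))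
      + A (G x) * levi B (G x) (fderiv ℂ G x (Z x)) (fderiv ℂ G x (Z' x))) ∂μ = 0 := by
  have : ProperSpace E := FiniteDimensional.proper ℂ E
  obtain ⟨Ψ, Q', q1, q2, q3, q4, q5, q6⟩ := exists_bump hQ h.opO hQO
  have hB1 : ContDiffOn ℝ 1 B O := hB.of_le one_le_two
  have cB := hB1.continuousOn_fderiv_of_isOpen h.opO le_rfl
  have a1 := h.comp one_le_two hA
  have b1 := hs.contDiffOn_pd (h.comp le_rfl hB)
  have i1 := h.integrableOn_parts hs hs'.hol.continuousOn hZ hZ' hQ hQO hA hB h0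
  have i2 := h.integrableOn_levi hs hs'.hol.continuousOn hZ hZ' hQ hQO hA.continuousOn hB
    fun x hx h1 => Or.inl (h0 _ (h.maps hx) h1)
  have e : ∀ x ∈ V, pb (fun x => A (G x) * pd (fun x => B (G x)) x (Z x)) x (Z' x)
      = pb A (G x) (fderiv ℂ G x (Z' x)) * pd B (G x) (fderiv ℂ G x (Z x))
        + A (G x) * levi B (G x) (fderiv ℂ G x (Z x)) (fderiv ℂ G x (Z' x)) := fun x hx => by
    rw [pb_mul ((a1.contDiffAt (h.op.mem_nhds hx)).differentiableAt one_ne_zero)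
      ((b1.contDiffAt (h.op.mem_nhds hx)).differentiableAt one_ne_zero), h.pb_comp hA hx,
      h.pd_comp hB1 hx, hs.pb_pd (h.comp le_rfl hB) hx, h.levi_comp hB hx]
  rw [← setIntegral_congr_fun h.op.measurableSet e]
  refine (h.wt hs' hZ' q1 q2 q3.contDiffOn (fun y _ => (q6 y).1) fun y _ => q5 y).stokes_pb
    (a1.mul b1) (fun x hx h1 => ?_) ?_
    ((i1.add i2).congr_fun (fun x hx => (e x hx).symm) h.op.measurableSet)
  · exact (q4 _ (by_contra fun h2 => h1 (by simp [h0 _ (h.maps hx) h2]))).self_of_nhds.ge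
  · refine h.integrableOn hZ hZ hQ hQO ((a1.mul b1).continuousOn.norm.pow 2)
      ((hA.continuousOn.norm.mul cB.norm).pow 2) (fun x hx h1 => by simp [h0 _ (h.maps hx) h1])
      fun x hx => ?_
    rw [norm_pow, norm_norm, norm_mul, h.pd_comp hB1 hx]
    refine (pow_le_pow_left₀ (by positivity) (mul_le_mul_of_nonneg_left (norm_pd_le _ _ _)
      (norm_nonneg _)) 2).trans (le_of_eq ?_)
    simp only [Pi.mul_apply, Pi.pow_apply]
    ring

/-- The basic formula of Stokes on a graph. -/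
theorem LP.parts (h : LP V G O) (hs : Sol μ V Z) (hs' : Sol μ V Z') (hZ : FinE μ V G O Z)
    (hZ' : FinE μ V G O Z') (hQ : IsCompact Q) (hQO : Q ⊆ O) {A B : Y → ℂ}
    (hA : ContDiffOn ℝ 1 A O) (hB : ContDiffOn ℝ 2 B O) (h0 : ∀ y ∈ O, y ∉ Q → A y = 0) :
    IntegrableOn (fun x => pb A (G x) (fderiv ℂ G x (Z' x)) * pd B (G x) (fderiv ℂ G x (Z x))) V μ ∧
    ∫ x in V, A (G x) * levi B (G x) (fderiv ℂ G x (Z x)) (fderiv ℂ G x (Z' x)) ∂μ
      = -∫ x in V, pb A (G x) (fderiv ℂ G x (Z' x)) * pd B (G x) (fderiv ℂ G x (Z x)) ∂μ := by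
  have : ProperSpace E := FiniteDimensional.proper ℂ E
  have c' := hs'.hol.continuousOn
  have i1 := fun {A} => h.integrableOn_parts hs c' hZ hZ' hQ hQO (A := A) (B := B)
  have i2 := fun {A} (hA : ContDiffOn ℝ 1 A O) (h0 : ∀ y ∈ O, y ∉ Q → A y = 0) =>
    h.integrableOn_levi hs c' hZ hZ' hQ hQO hA.continuousOn hB
      fun x hx h1 => Or.inl (h0 _ (h.maps hx) h1)
  refine ⟨i1 hA hB h0, eq_neg_of_add_eq_zero_right ?_⟩
  choose! U l h1 h2 h3 using h.loc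
  obtain ⟨s, ρ, r1, r2⟩ := exists_partition hQ (U := U)
    fun p hp => ⟨(h3 p (hQO hp)).opO, h1 p (hQO hp)⟩
  have a1 : ∀ p, ContDiffOn ℝ 1 (fun y => (ρ p y : ℂ) * A y) O := fun p =>
    (ofRealCLM.contDiff.comp ((r1 p).1.of_le one_le_two)).contDiffOn.mul hA
  have a0 : ∀ p, ∀ y ∈ O, y ∉ Q → (ρ p y : ℂ) * A y = 0 := fun p y y1 y2 => by simp [h0 y y1 y2]
  have e : ∀ y ∈ O, A y = ∑ p ∈ s, (ρ p y : ℂ) * A y := fun y hy => by
    by_cases h4 : y ∈ Q
    · rw [← Finset.sum_mul, ← ofReal_sum, r2 y h4, ofReal_one, one_mul]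
    · simp [h0 y hy h4]
  rw [← integral_add (i1 hA hB h0) (i2 hA h0), setIntegral_congr_fun h.op.measurableSet
    (g := fun x => ∑ p ∈ s, (pb (fun y => (ρ p y : ℂ) * A y) (G x) (fderiv ℂ G x (Z' x))
      * pd B (G x) (fderiv ℂ G x (Z x)) + (ρ p (G x) : ℂ) * A (G x)
        * levi B (G x) (fderiv ℂ G x (Z x)) (fderiv ℂ G x (Z' x)))) fun x hx => ?_,
    integral_finsetSum _ fun p _ => by exact (i1 (a1 p) hB (a0 p)).add (i2 (a1 p) (a0 p))]
  · refine Finset.sum_eq_zero fun p _ => ?_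
    have hp := h3 p (hQO p.2)
    have hU := h2 p (hQO p.2)
    rw [setIntegral_eq_of_subset_of_forall_sdiff_eq_zero h.op.measurableSet
      (inter_subset_left (t := G ⁻¹' U p)) fun x hx => ?_]
    · exact hp.parts (hs.mono hp.op inter_subset_left) (hs'.mono hp.op inter_subset_left)
        (hZ.mono inter_subset_left hU) (hZ'.mono inter_subset_left hU)
        (hQ.inter_right (isClosed_tsupport (ρ p))) (inter_subset_right.trans (r1 p).2)
        ((a1 p).mono hU) (hB.mono hU) fun y y1 y2 => by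
          rcases not_and_or.1 y2 with y3 | y3
          · exact a0 p y (hU y1) y3
          · simp [image_eq_zero_of_notMem_tsupport y3]
    · have h4 : (fun y => (ρ p y : ℂ) * A y) =ᶠ[𝓝 (G x)] fun _ => 0 :=
        (notMem_tsupport_iff_eventuallyEq.1 fun h5 => hx.2 ⟨hx.1, (r1 p).2 h5⟩).mono
          fun y hy => by simp [hy]
      rw [pb_congr h4, show (ρ p (G x) : ℂ) * A (G x) = 0 from h4.self_of_nhds]
      simp
  · have hx' := h.opO.mem_nhds (h.maps hx)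
    simp only [Finset.sum_add_distrib, ← Finset.sum_mul]
    rw [← pb_sum fun p _ => ((a1 p).contDiffAt hx').differentiableAt one_ne_zero,
      ← pb_congr (eventually_of_mem hx' e), Finset.sum_mul, ← e _ (h.maps hx)]

theorem LP.integral_levi (h : LP V G O) (hs : Sol μ V Z) (hs' : Sol μ V Z')
    (hZ : FinE μ V G O Z) (hZ' : FinE μ V G O Z') (hQ : IsCompact Q) (hQO : Q ⊆ O) {B : Y → ℂ}
    (hB : ContDiffOn ℝ 2 B O) (h0 : ∀ y ∈ O, y ∉ Q → B y = 0) :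
    ∫ x in V, levi B (G x) (fderiv ℂ G x (Z x)) (fderiv ℂ G x (Z' x)) ∂μ = 0 := by
  obtain ⟨Ψ, Q', q1, q2, q3, q4, q5, q6⟩ := exists_bump hQ h.opO hQO
  have h1 := (h.parts hs hs' hZ hZ' q1 q2 (A := fun y => (Ψ y : ℂ))
    (ofRealCLM.contDiff.comp (q3.of_le one_le_two)).contDiffOn hB fun y _ y2 => by simp [q5 y y2]).2
  rw [setIntegral_congr_fun h.op.measurableSet (g := fun _ => 0) (f := fun x =>
    pb (fun y => (Ψ y : ℂ)) (G x) (fderiv ℂ G x (Z' x)) * pd B (G x) (fderiv ℂ G x (Z x)))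
    fun x hx => ?_, integral_zero, neg_zero] at h1
  · refine Eq.trans (setIntegral_congr_fun h.op.measurableSet fun x hx => ?_) h1
    by_cases h2 : G x ∈ Q
    · simp [(q4 _ h2).self_of_nhds]
    · simp [levi_zero (h.zero_near hQ h0 hx h2)]
  · by_cases h2 : G x ∈ Q
    · have : (fun y => (Ψ y : ℂ)) =ᶠ[𝓝 (G x)] fun _ => 1 := (q4 _ h2).mono fun y hy => by simp [hy]
      simp [pb_congr this]
    · simp [pd_congr (h.zero_near hQ h0 hx h2)]

/-- The formula of Green on a graph, for a real function `A`. -/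
theorem LP.green (h : LP V G O) (hs : Sol μ V Z) (hZ : FinE μ V G O Z) (hQ : IsCompact Q)
    (hQO : Q ⊆ O) {A B : Y → ℝ} (hA : ContDiffOn ℝ 2 A O) (hB : ContDiffOn ℝ 2 B O)
    (h0 : ∀ y ∈ O, y ∉ Q → (A =ᶠ[𝓝 y] fun _ => 0) ∨ B =ᶠ[𝓝 y] fun _ => 0) :
    ∫ x in V, A (G x) * (levi (fun y => (B y : ℂ)) (G x) (fderiv ℂ G x (Z x))
        (fderiv ℂ G x (Z x))).re ∂μ
      = ∫ x in V, B (G x) * (levi (fun y => (A y : ℂ)) (G x) (fderiv ℂ G x (Z x))
        (fderiv ℂ G x (Z x))).re ∂μ := by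
  obtain ⟨Ψ, Q', q1, q2, q3, q4, q5, q6⟩ := exists_bump hQ h.opO hQO
  have key : ∀ {A B : Y → ℝ}, ContDiffOn ℝ 2 A O → ContDiffOn ℝ 2 B O →
      (∀ y ∈ O, y ∉ Q → (A =ᶠ[𝓝 y] fun _ => 0) ∨ B =ᶠ[𝓝 y] fun _ => 0) →
      ∫ x in V, A (G x) * (levi (fun y => (B y : ℂ)) (G x) (fderiv ℂ G x (Z x))
        (fderiv ℂ G x (Z x))).re ∂μ = -∫ x in V, (pb (fun y => (A y : ℂ)) (G x) (fderiv ℂ G x (Z x))
          * pd (fun y => (B y : ℂ)) (G x) (fderiv ℂ G x (Z x))).re ∂μ := by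
    intro A B hA hB h0
    have a2 : ContDiffOn ℝ 2 (fun y => (A y : ℂ)) O := ofRealCLM.contDiff.comp_contDiffOn hA
    have b2 : ContDiffOn ℝ 2 (fun y => (B y : ℂ)) O := ofRealCLM.contDiff.comp_contDiffOn hB
    have p1 : ContDiffOn ℝ 1 (fun y => (Ψ y : ℂ) * A y) O :=
      (ofRealCLM.contDiff.comp (q3.of_le one_le_two)).contDiffOn.mul (a2.of_le one_le_two)
    have alt : ∀ x ∈ V, ((fun y => (Ψ y : ℂ) * A y) =ᶠ[𝓝 (G x)] fun y => (A y : ℂ))
        ∨ (fun y => (B y : ℂ)) =ᶠ[𝓝 (G x)] fun _ => 0 := fun x hx => by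
      by_cases h2 : G x ∈ Q
      · exact Or.inl ((q4 _ h2).mono fun y hy => by simp [hy])
      · exact (h0 _ (h.maps hx) h2).imp (fun h3 => h3.mono fun y hy => by simp [hy])
          fun h3 => h3.mono fun y hy => by simp [hy]
    obtain ⟨i1, h1⟩ := h.parts hs hs hZ hZ q1 q2 p1 b2 fun y _ y2 => by simp [q5 y y2]
    have i2 := h.integrableOn_levi (have := FiniteDimensional.proper ℂ E; hs) hs.hol.continuousOn
      hZ hZ q1 q2 p1.continuousOn b2 fun x _ h1 => Or.inl (by simp [q5 _ h1])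
    have h2 := congrArg re h1
    rw [neg_re, ← reCLM_apply, ← reCLM_apply, ← reCLM.integral_comp_comm i1,
      ← reCLM.integral_comp_comm i2] at h2
    refine Eq.trans (setIntegral_congr_fun h.op.measurableSet fun x hx => ?_)
      (h2.trans (congrArg _ (setIntegral_congr_fun h.op.measurableSet fun x hx => ?_)))
    · rcases alt x hx with h3 | h3
      · simp only [reCLM_apply, show (Ψ (G x) : ℂ) * A (G x) = A (G x) from h3.self_of_nhds,
          re_ofReal_mul]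
      · simp [levi_zero h3]
    · rcases alt x hx with h3 | h3
      · simp only [reCLM_apply, pb_congr h3]
      · simp [pd_congr h3]
  rw [key hA hB h0, key hB hA fun y y1 y2 => (h0 y y1 y2).symm]
  congr 2
  funext x
  rw [pb_real, pb_real, ← conj_re, map_mul, conj_conj, mul_comm]

end Pool.Agent.Lib.MP_823829_an.VO
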