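import Pool.Agent.Lib.MP_823829_an.VO.Log
import Pool.Agent.Lib.MP_823829_an.LA.Stmt2

/-!
Statements of the volume estimates.
-/

namespace Pool.Agent.Lib.MP_823829_an.VO

open Set Filter Topology Complex MeasureTheory Metric Module
open scoped ComplexConjugate ENNReal

universe u

/-- The projection to two coordinates, with values in a plane with basis `b`. -/
noncomputable def prj {T Y : Type} [NormedAddCommGroup T] [NormedSpace ℂ T] [NormedAddCommGroup Y]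
    [NormedSpace ℂ Y] {M : ℕ} (e : Y ≃L[ℂ] (Fin M → ℂ)) (b : Fin 2 → T) (a c : Fin M) :
    Y →L[ℂ] T :=
  ((ContinuousLinearMap.proj a).comp e.toContinuousLinearMap).smulRight (b 0)
    + ((ContinuousLinearMap.proj c).comp e.toContinuousLinearMap).smulRight (b 1)

/-- The lower bound of Lelong for surfaces. -/
def LelS : Prop :=
  ∀ (T Y : Type) [NormedAddCommGroup T] [NormedSpace ℂ T] [FiniteDimensional ℂ T]
    [MeasurableSpace T] [BorelSpace T] (μ : Measure T) [μ.IsAddHaarMeasure]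
    [NormedAddCommGroup Y] [NormedSpace ℂ Y] [FiniteDimensional ℂ Y] (b : Basis (Fin 2) ℂ T)
    (M : ℕ) (e : Y ≃L[ℂ] (Fin M → ℂ)), ∃ c : ℝ, 0 < c ∧ ∀ (V : Set T) (G : T → Y) (O : Set Y),
      LP V G O → (∀ a, FinE μ V G O (fld (fun x (_ : Fin 1) => e (G x) a) b)) →
      (∀ x ∈ V, Function.Injective (fderiv ℂ G x)) →
      ∀ q ∈ closure (G '' V), ∀ ρ : ℝ, 0 < ρ → closedBall q ρ ⊆ O →
        ENNReal.ofReal (c * ρ ^ 4) ≤ ∫⁻ x in V ∩ G ⁻¹' ball q ρ,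
          ∑ a, ∑ a', ‖((prj e b a a').comp (fderiv ℂ G x)).det‖ₑ ^ 2 ∂μ

/-- A positive form of type `(2,2)` with vanishing mixed second derivative, written as a Hermitian
form on pairs of vectors in every preferred chart. -/
structure HD (F : Type) (X : Type u) [NormedAddCommGroup F] [NormedSpace ℂ F] [TopologicalSpace X]
    [ChartedSpace F X] (H : X → F → (Fin 2 → F) → (Fin 2 → F) → ℂ) : Prop where
  trans : ∀ x₀ x₁ : X, DifferentiableOn ℂ (fun y => chartAt F x₁ ((chartAt F x₀).symm y))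
    ((chartAt F x₀).target ∩ (chartAt F x₀).symm ⁻¹' (chartAt F x₁).source)
  alt : ∀ x₀ y v, ∃ ω : F [⋀^Fin 2]→ₗ[ℂ] ℂ, ∀ u, H x₀ y u v = ω u
  herm : ∀ x₀ y u v, H x₀ y v u = conj (H x₀ y u v)
  sm : ∀ x₀ u v, ContDiffOn ℝ 2 (fun y => H x₀ y u v) (chartAt F x₀).target
  pos : ∀ x₀, ∀ y ∈ (chartAt F x₀).target, ∀ u, LinearIndependent ℂ u → 0 < (H x₀ y u u).re
  compat : ∀ x₀ x₁ : X, ∀ x ∈ (chartAt F x₀).source, x ∈ (chartAt F x₁).source → ∀ u v,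
    H x₀ (chartAt F x₀ x) u v = H x₁ (chartAt F x₁ x)
      (fun i => fderiv ℂ (fun y => chartAt F x₁ ((chartAt F x₀).symm y)) (chartAt F x₀ x) (u i))
      (fun i => fderiv ℂ (fun y => chartAt F x₁ ((chartAt F x₀).symm y)) (chartAt F x₀ x) (v i))
  closed : ∀ x₀, ∀ y ∈ (chartAt F x₀).target, ∀ u v : Fin 3 → F,
    ∑ j : Fin 3, ∑ k : Fin 3, (-1) ^ ((j : ℕ) + k) * levi (fun y => H x₀ y
      (fun i => u (j.succAbove i)) fun i => v (k.succAbove i)) y (u j) (v k) = 0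

/-- The complex plane of dimension two. -/
abbrev C2 := Fin 2 → ℂ

/-- The shell between two polydiscs. -/
def shell (r ρ : ℝ) : Set C2 := {w | r < ‖w‖ ∧ ‖w‖ < ρ}

/-- A quarter of the Laplacian. -/
noncomputable def lap (ψ : C2 → ℝ) (z : C2) : ℝ :=
  ∑ i, (levi (fun y => (ψ y : ℂ)) z (Pi.single i 1) (Pi.single i 1)).re

/-- The area function: its Laplacian is bounded, and where it stays bounded the slice extends. -/
def VolS : Prop :=
  ∀ (m : ℕ) (X : Type u) [TopologicalSpace X] [T2Space X] [CompactSpace X]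
    [ChartedSpace (Fin m → ℂ) X] (H : X → (Fin m → ℂ) → (Fin 2 → Fin m → ℂ) →
      (Fin 2 → Fin m → ℂ) → ℂ), HD (Fin m → ℂ) X H →
    ∀ (U W : Set C2) (r ρ : ℝ) (f : C2 × C2 → X) (Γ : Set ((C2 × C2) × X)),
      IsOpen U → IsOpen W → W ⊆ U → 0 < r → r < ρ → LA.HolX (Fin m → ℂ) f (U ×ˢ shell r ρ) →
      LA.GMer (Fin m → ℂ) Γ (W ×ˢ ball 0 ρ) → (∀ q ∈ W ×ˢ shell r ρ, (q, f q) ∈ Γ) →
      ∃ a : C2 → ℝ, (∀ z, 0 ≤ a z) ∧ LocallyIntegrableOn a W ∧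
        (∀ K, IsCompact K → K ⊆ U → ∃ C : ℝ, ∀ ψ : C2 → ℝ, ContDiff ℝ 2 ψ → (∀ z, 0 ≤ ψ z) →
          tsupport ψ ⊆ K ∩ W → |∫ z, a z * lap ψ z| ≤ C * ∫ z, ψ z) ∧
        ∀ z₀ ∈ U, ∀ N : ℝ, (∀ O ∈ 𝓝 z₀, volume {z ∈ W ∩ O | a z ≤ N} ≠ 0) →
          ∃ Γ₀ : Set (C2 × X), LA.GMer (Fin m → ℂ) Γ₀ (ball 0 ρ) ∧
            ∀ w ∈ shell r ρ, (w, f (z₀, w)) ∈ Γ₀

end Pool.Agent.Lib.MP_823829_an.VO
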